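import Pool.Agent.U880.HJ.Ext
import Pool.Agent.Y164.HG.Cla

/-!
The matrix of a new prime in terms of symbols; the set of the twists with trivial kernel.
-/

set_option autoImplicit false
set_option linter.all false

namespace Pool.Agent.U880.HJ

open Finset Polynomial Pool.Agent.Y164.HG
open Pool.Agent.Y164.PS (L ch Fam L_comm L_mul_left L_prod_left L_C L_pow coprime_C
  coprime_of_not_dvd L_eq_zero_iff L_of_not_coprime L_congr el)
open scoped Classical

/-- the symbol -/
noncomputable def sy {k : Type} [Field k] (P f : k[X]) : ZMod 2 := if ∃ z, P ∣ z ^ 2 - f then 0 else 1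

/-- the matrix of a prime -/
noncomputable def My {k : Type} [Field k] {n : ℕ} (a : Fin n → k[X]) (D P : k[X])
    (x : Fin n → ZMod 2) (l : Fin n) : ZMod 2 :=
  sy P D * x l + ∑ l', sy P (a l - a l') * (x l + x l')

section

variable {k : Type} [Field k] [Fintype k] [DecidableEq k]

theorem sy_eq (hk : ringChar k ≠ 2) {P f : k[X]} (hP : P.Monic) (hi : Irreducible P) :
    sy P f = L f P := by
  by_cases h : P ∣ f
  · rw [sy, if_pos ⟨0, by simpa using h⟩, L_of_not_coprime hi.ne_zero]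
    intro hc
    exact hi.not_isUnit (hc.isUnit_of_dvd' h dvd_rfl)
  · have h1 := L_eq_zero_iff hk hP hi h
    rw [sy]
    split_ifs with h2
    · exact (h1.2 h2).symm
    · exact (F2_ne_zero fun h3 => h2 (h1.1 h3)).symm

theorem sy_comm (hk : ringChar k ≠ 2) (hm : IsSquare (-1 : k)) {P Q : k[X]} (hP : P.Monic)
    (hi : Irreducible P) (hQ : Q.Monic) (hi' : Irreducible Q) : sy P Q = sy Q P := by
  rw [sy_eq hk hP hi, sy_eq hk hQ hi', L_comm hm]

variable {n : ℕ} {a : Fin n → k[X]} {N : ℕ} (H : Geo a N)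

include H

/-- the symbol of a difference at a prime which is not a node -/
theorem L_diff {P : k[X]} (hP : P.Monic) (hi : Irreducible P) (hPQ : ∀ s, P ≠ QQ a s)
    {i j : Fin n} (h : i ≠ j) : L (a i - a j) P =
      ∑ s, mu H.p H.q i j s * L (QQ a s) P + (P.natDegree : F2) * ch (a i - a j).leadingCoeff := by
  have hl : (a i - a j).leadingCoeff ≠ 0 := leadingCoeff_ne_zero.2 (H.ne h)
  have hc : ∀ s, IsCoprime (QQ a s) P := by
    intro s
    apply coprime_of_not_dvd hi
    intro hd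
    exact hPQ s (eq_of_monic_of_associated hP (H.fam.mon s) (hi.associated_of_dvd (H.fam.irr s) hd))
  have h1 := H.fac h
  conv_lhs => rw [h1, el]
  rw [L_mul_left hi.ne_zero (C_ne_zero.2 hl)
    (prod_ne_zero_iff.2 fun s _ => pow_ne_zero _ (H.fam.mon s).ne_zero) (coprime_C hl _)
    (IsCoprime.prod_left fun s _ => (hc s).pow_left), L_C hl, L_prod_left hi.ne_zero
    (fun s _ => pow_ne_zero _ (H.fam.mon s).ne_zero) (fun s _ => (hc s).pow_left), add_comm]
  congr 1
  refine sum_congr rfl fun s _ => ?_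
  rw [L_pow hi.ne_zero (H.fam.mon s).ne_zero (hc s), H.cast_exp h]

variable [Fact (Odd n)]

/-- the matrix of a new prime in coordinates -/
theorem MM_coord {ι : Type} [Fintype ι] {T : ι → k[X]} (hT : ∀ i, (T i).Monic ∧ Irreducible (T i))
    {P : k[X]} (hP : P.Monic) (hi : Irreducible P) (hPT : ∀ i, P ≠ T i) (hPQ : ∀ s, P ≠ QQ a s)
    (σ : Tau a → F2) (x : EW n) (l : Fin n) :
    (MM (H.dat σ) (fun j => L (T j) P) (fun s => L P (QQ a s)) (P.natDegree : F2) x).1 l =
      My a (∏ i, T i) P x.1 l := by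
  have hα : ∑ j, L (T j) P = sy P (∏ i, T i) := by
    rw [sy_eq H.hk hP hi, L_prod_left hi.ne_zero fun i _ => (hT i).1.ne_zero]
    intro i _
    apply coprime_of_not_dvd hi
    intro hd
    exact hPT i (eq_of_monic_of_associated hP (hT i).1 (hi.associated_of_dvd (hT i).2 hd))
  have hsum : ∀ f : Tau a → EW n, (∑ s, f s).1 l = ∑ s, (f s).1 l := by
    intro f
    have h1 := map_sum ((LinearMap.proj l : (Fin n → F2) →ₗ[F2] F2).comp (EW n).subtype) f univ
    exact h1
  have e1 : (MM (H.dat σ) (fun j => L (T j) P) (fun s => L P (QQ a s)) (P.natDegree : F2) x).1 l =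
      (∑ j, L (T j) P) * x.1 l +
      ∑ s, L P (QQ a s) * (x.1 (H.p s) + x.1 (H.q s)) * e2 (H.p s) (H.q s) l +
      (P.natDegree : F2) * H.comb.ksf x.1 l := by
    have h1 : ∀ s, om x ((H.dat σ).t s) = x.1 (H.p s) + x.1 (H.q s) := fun s => om_E2v x _ _
    have h2 : (∑ s, (L P (QQ a s) * om x ((H.dat σ).t s)) • (H.dat σ).t s).1 l =
        ∑ s, L P (QQ a s) * (x.1 (H.p s) + x.1 (H.q s)) * e2 (H.p s) (H.q s) l := by
      rw [hsum]
      refine sum_congr rfl fun s _ => ?_
      rw [h1]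
      rfl
    show (∑ j, L (T j) P) * x.1 l + (∑ s, (L P (QQ a s) * om x ((H.dat σ).t s)) •
      (H.dat σ).t s).1 l + (P.natDegree : F2) * H.comb.ksf x.1 l = _
    rw [h2]
  rw [e1, hα, My, add_assoc]
  congr 1
  have e2' : ∑ s, L P (QQ a s) * (x.1 (H.p s) + x.1 (H.q s)) * e2 (H.p s) (H.q s) l =
      ∑ l', ∑ s, (mu H.p H.q l l' s * L (QQ a s) P) * (x.1 l + x.1 l') := by
    rw [sum_comm]
    refine sum_congr rfl fun s _ => ?_
    have h1 := H.comb.key x.1 l s
    have h2 : ∑ j, mu H.p H.q l j s * (x.1 l + x.1 j) =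
      e2 (H.p s) (H.q s) l * (x.1 (H.p s) + x.1 (H.q s)) := h1
    calc L P (QQ a s) * (x.1 (H.p s) + x.1 (H.q s)) * e2 (H.p s) (H.q s) l =
        L P (QQ a s) * (e2 (H.p s) (H.q s) l * (x.1 (H.p s) + x.1 (H.q s))) := by ring
      _ = L P (QQ a s) * ∑ j, mu H.p H.q l j s * (x.1 l + x.1 j) := by rw [h2]
      _ = _ := by
        rw [mul_sum]
        refine sum_congr rfl fun j _ => ?_
        rw [L_comm H.hm P (QQ a s)]
        ring
  have e3 : (P.natDegree : F2) * H.comb.ksf x.1 l =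
      ∑ l', ((P.natDegree : F2) * ch (a l - a l').leadingCoeff) * (x.1 l + x.1 l') := by
    show (P.natDegree : F2) * ∑ j, (x.1 l + x.1 j) * ch (a l - a j).leadingCoeff = _
    rw [mul_sum]
    exact sum_congr rfl fun j _ => by ring
  rw [e2', e3, ← sum_add_distrib]
  refine sum_congr rfl fun l' _ => ?_
  by_cases hll : l = l'
  · rw [← hll, F2_add_self]
    simp
  · rw [sy_eq H.hk hP hi, L_diff H hP hi hPQ hll, add_mul, sum_mul]

end

end Pool.Agent.U880.HJ
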