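import Pool.Agent.U880.HJ.Ar

/-!
The set of the twists with trivial kernel, and the exact criterion for adding an even number of primes
of the same type.
-/

set_option autoImplicit false
set_option linter.all false

namespace Pool.Agent.U880.HJ

open Finset Polynomial Pool.Agent.Y164.HG
open Pool.Agent.Y164.PS (L ch Fam L_comm L_mul_left L_prod_left L_C L_pow coprime_C
  coprime_of_not_dvd L_eq_zero_iff L_of_not_coprime L_congr el)
open scoped Classical

section reindex

variable {W : Type} [AddCommGroup W] [Module F2 W] [Symp W]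
variable {ι ι' τ : Type} [Fintype ι] [Fintype ι'] [Fintype τ]

theorem triv_reindex {D : Dat W τ} {A : ι → ι → F2} {B : ι → τ → F2} {d : ι → F2} (e : ι' ≃ ι)
    (h : Triv D A B d) : Triv D (fun i j => A (e i) (e j)) (fun i => B (e i)) (fun i => d (e i)) := by
  have hdg : ∀ w : V W ι' τ, dg D d ((fun i => w.1 (e.symm i)), w.2) = dg D (fun i => d (e i)) w := by
    intro w
    simp only [dg]
    congr 1
    rw [← Equiv.sum_comp e]
    simp only [Equiv.symm_apply_apply]
  have hFF : ∀ w w' : V W ι' τ, FF D A B d ((fun i => w.1 (e.symm i)), w.2)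
      ((fun i => w'.1 (e.symm i)), w'.2) =
      FF D (fun i j => A (e i) (e j)) (fun i => B (e i)) (fun i => d (e i)) w w' := by
    intro w w'
    simp only [FF]
    rw [← Equiv.sum_comp e (fun i => ∑ j, A i j * (om (w.1 (e.symm j)) (w'.1 (e.symm i)) +
        om (w.1 (e.symm i)) (w'.1 (e.symm i)))),
      ← Equiv.sum_comp e (fun i => ∑ s, B i s * (om (w.1 (e.symm i)) (D.t s) *
        om (w'.1 (e.symm i)) (D.t s) + w.2 s * om (D.t s) (w'.1 (e.symm i)) +
        w'.2 s * om (w.1 (e.symm i)) (D.t s))),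
      ← Equiv.sum_comp e (fun i => d i * om (D.ks (w.1 (e.symm i))) (w'.1 (e.symm i)))]
    simp only [Equiv.symm_apply_apply]
    congr 4
    refine sum_congr rfl fun i _ => ?_
    rw [← Equiv.sum_comp e]
    simp only [Equiv.symm_apply_apply]
  intro w hw hF
  have h0 := h ((fun i => w.1 (e.symm i)), w.2) (by rw [hdg]; exact hw) (by
    intro w' hw'
    have h1 := hF ((fun i => w'.1 (e i)), w'.2) (by
      rw [← hdg]
      simpa using hw')
    rw [← hFF] at h1
    simpa using h1)
  apply Prod.ext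
  · funext i
    have h2 := congrFun (congrArg Prod.fst h0) (e i)
    simpa using h2
  · have h3 := congrArg Prod.snd h0
    exact h3

end reindex

section

variable {k : Type} [Field k] [Fintype k] [DecidableEq k]

omit [Fintype k] [DecidableEq k] in
theorem range_sub {ι ι' : Type} [Fintype ι] [Fintype ι'] {T : ι → k[X]} {T' : ι' → k[X]}
    (hT : ∀ i, (T i).Monic ∧ Irreducible (T i)) (hT' : ∀ i, (T' i).Monic ∧ Irreducible (T' i))
    (h : ∏ i, T' i = ∏ i, T i) : Set.range T' ⊆ Set.range T := by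
  rintro _ ⟨i, rfl⟩
  have h1 : T' i ∣ ∏ i, T i := h ▸ dvd_prod_of_mem T' (mem_univ i)
  obtain ⟨j, -, hd⟩ := ((hT' i).2.prime.dvd_finset_prod_iff _).1 h1
  exact ⟨j, (eq_of_monic_of_associated (hT' i).1 (hT j).1
    ((hT' i).2.associated_of_dvd (hT j).2 hd)).symm⟩

omit [Fintype k] [DecidableEq k] in
theorem ex_equiv {ι ι' : Type} [Fintype ι] [Fintype ι'] {T : ι → k[X]} {T' : ι' → k[X]}
    (hT : ∀ i, (T i).Monic ∧ Irreducible (T i)) (hT' : ∀ i, (T' i).Monic ∧ Irreducible (T' i))
    (hi : Function.Injective T) (hi' : Function.Injective T') (h : ∏ i, T' i = ∏ i, T i) :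
    ∃ e : ι ≃ ι', ∀ i, T' (e i) = T i := by
  have hr : Set.range T = Set.range T' :=
    Set.Subset.antisymm (range_sub hT' hT h.symm) (range_sub hT hT' h)
  refine ⟨(Equiv.ofInjective T hi).trans ((Equiv.setCongr hr).trans (Equiv.ofInjective T' hi').symm),
    fun i => ?_⟩
  exact Equiv.apply_ofInjective_symm hi' _

variable {n : ℕ} {a : Fin n → k[X]} {N : ℕ} (H : Geo a N) [Fact (Odd n)]

/-- the data of a family -/
structure Fm {ι : Type} [Fintype ι] (T : ι → k[X]) (σ : Tau a → F2) : Prop where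
  fam : Fam (Sum.elim T (QQ a))
  cl : cl (H.dat σ) (QQ a) T
  par : ∑ i, ((T i).natDegree : F2) + (N : F2) = 1
  triv : Triv (H.dat σ) (AT T) (BT (QQ a) T) (fun i => ((T i).natDegree : F2))

/-- the twists with trivial kernel -/
def GG (E : k[X]) : Prop :=
  ∃ (ι : Type) (_ : Fintype ι) (T : ι → k[X]) (σ : Tau a → F2), E = ∏ i, T i ∧ Fm H T σ

theorem imp_GG (σ : Tau a → F2) : Imp (H.dat σ) (QQ a) (GG H) := by
  intro ι _ T hR hcl hpar htr
  exact ⟨ι, inferInstance, T, σ, rfl, hR, hcl, hpar, htr⟩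

variable {H}

theorem Fm.mi {ι : Type} [Fintype ι] {T : ι → k[X]} {σ : Tau a → F2} (h : Fm H T σ) (i : ι) :
    (T i).Monic ∧ Irreducible (T i) := ⟨h.fam.mon (Sum.inl i), h.fam.irr (Sum.inl i)⟩

theorem Fm.inj {ι : Type} [Fintype ι] {T : ι → k[X]} {σ : Tau a → F2} (h : Fm H T σ) :
    Function.Injective T := fun i j hij => Sum.inl_injective (h.fam.inj (a₁ := Sum.inl i)
      (a₂ := Sum.inl j) hij)

theorem Fm.congr {ι ι' : Type} [Fintype ι] [Fintype ι'] {T : ι → k[X]} {T' : ι' → k[X]}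
    {σ : Tau a → F2} (h : Fm H T' σ) (e : ι ≃ ι') (he : ∀ i, T' (e i) = T i) : Fm H T σ := by
  have hT : T = fun i => T' (e i) := funext fun i => (he i).symm
  subst hT
  refine ⟨⟨?_, ?_, ?_⟩, ?_, ?_, ?_⟩
  · rintro (i | s)
    · exact h.fam.mon (Sum.inl (e i))
    · exact h.fam.mon (Sum.inr s)
  · rintro (i | s)
    · exact h.fam.irr (Sum.inl (e i))
    · exact h.fam.irr (Sum.inr s)
  · have h1 : (Sum.elim (fun i => T' (e i)) (QQ a)) = (Sum.elim T' (QQ a)) ∘ (Sum.map e id) := by
      funext x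
      rcases x with i | s <;> rfl
    rw [h1]
    exact h.fam.inj.comp (Sum.map_injective.2 ⟨e.injective, Function.injective_id⟩)
  · intro s
    have h1 := h.cl s
    rw [← Equiv.sum_comp e] at h1
    exact h1
  · rw [← h.par, ← Equiv.sum_comp e]
  · exact triv_reindex e h.triv

/-- the class is determined by the polynomial -/
theorem Fm.sig {ι : Type} [Fintype ι] {T : ι → k[X]} {σ : Tau a → F2} (h : Fm H T σ) (s : Tau a) :
    σ s + L (∏ i, T i) (QQ a s) + (H.dat σ).g s = 0 := by
  rw [L_prod_left (H.fam.irr s).ne_zero fun i _ => (h.mi i).1.ne_zero]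
  · exact h.cl s
  · intro i _
    apply coprime_of_not_dvd (H.fam.irr s)
    intro hd
    have h1 := eq_of_monic_of_associated (H.fam.mon s) (h.mi i).1
      ((H.fam.irr s).associated_of_dvd (h.mi i).2 hd)
    have h2 := h.fam.inj (a₁ := Sum.inl i) (a₂ := Sum.inr s) h1.symm
    exact absurd h2 (by simp)

/-- The classes and families of a polynomial in the set. -/
theorem Fm.of_GG {ι : Type} [Fintype ι] {T : ι → k[X]} (hT : ∀ i, (T i).Monic ∧ Irreducible (T i))
    (hi : Function.Injective T) (h : GG H (∏ i, T i)) : ∃ σ, Fm H T σ := by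
  obtain ⟨ι', _, T', σ, hE, h'⟩ := h
  obtain ⟨e, he⟩ := ex_equiv hT h'.mi hi h'.inj hE.symm
  exact ⟨σ, h'.congr e he⟩

theorem Fm.sig_eq {ι ι' : Type} [Fintype ι] [Fintype ι'] {T : ι → k[X]} {T' : ι' → k[X]}
    {σ σ' : Tau a → F2} (h : Fm H T σ) (h' : Fm H T' σ')
    (hL : ∀ s, L (∏ i, T i) (QQ a s) = L (∏ i, T' i) (QQ a s)) : σ = σ' := by
  funext s
  have h1 := h.sig s
  have h2 := h'.sig s
  rw [hL] at h1
  have h3 : (H.dat σ).g s = (H.dat σ').g s := rfl
  rw [h3] at h1
  have h4 : ∀ a b c d : F2, a + c + d = 0 → b + c + d = 0 → a = b := by decide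
  exact h4 _ _ _ _ h1 h2

variable (a) in
/-- new primes -/
def Nw (D P : k[X]) : Prop := P.Monic ∧ Irreducible P ∧ ¬ P ∣ D * Del a

variable (a) in
/-- the same type -/
def ST (D P P' : k[X]) : Prop :=
  (Even P.natDegree ↔ Even P'.natDegree) ∧
    ∀ R : k[X], R.Monic → Irreducible R → R ∣ D * Del a → sy R P = sy R P'

theorem card_F2 {m : ℕ} (h : Even m) : (m : F2) = 0 := (ZMod.natCast_eq_zero_iff_even).2 h

theorem deg_F2 {m m' : ℕ} (h : Even m ↔ Even m') : (m : F2) = (m' : F2) := by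
  rcases Nat.even_or_odd m with hm | hm
  · rw [card_F2 hm, card_F2 (h.1 hm)]
  · have hm' : Odd m' := by
      rw [← Nat.not_even_iff_odd] at hm ⊢
      exact fun h' => hm (h.2 h')
    rw [(ZMod.natCast_eq_one_iff_odd).2 hm, (ZMod.natCast_eq_one_iff_odd).2 hm']

/-- the family of the product -/
theorem Fm.iff_sum {ι κ : Type} [Fintype ι] [Fintype κ] {T : ι → k[X]} {σ : Tau a → F2}
    (h : Fm H T σ) (hκ : Even (Fintype.card κ)) {P : κ → k[X]} (hP : ∀ i, Nw a (∏ i, T i) (P i))
    (hinj : Function.Injective P) (hs : ∀ i i', ST a (∏ i, T i) (P i) (P i')) (i₀ : κ) :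
    Fm H (Sum.elim T P) σ ↔ Crit (H.dat σ) (fun i i' => L (P i) (P i')) (fun j => L (T j) (P i₀))
      (fun s => L (P i₀) (QQ a s)) ((P i₀).natDegree : F2) := by
  have hκ' : (Fintype.card κ : F2) = 0 := card_F2 hκ
  have hnT : ∀ i j, P i ≠ T j := by
    intro i j hij
    exact (hP i).2.2 (hij ▸ (dvd_prod_of_mem T (mem_univ j)).mul_right _)
  have hnQ : ∀ i s, P i ≠ QQ a s := by
    intro i s his
    exact (hP i).2.2 (his ▸ ((H.mem.1 s.2).2.2).mul_left _)
  have hdT : ∀ i j, L (T j) (P i) = L (T j) (P i₀) := by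
    intro i j
    have h1 := (hs i i₀).2 (T j) (h.mi j).1 (h.mi j).2 ((dvd_prod_of_mem T (mem_univ j)).mul_right _)
    rw [sy_eq H.hk (h.mi j).1 (h.mi j).2, sy_eq H.hk (h.mi j).1 (h.mi j).2] at h1
    rw [L_comm H.hm, h1, L_comm H.hm]
  have hdQ : ∀ i s, L (P i) (QQ a s) = L (P i₀) (QQ a s) := by
    intro i s
    have h1 := (hs i i₀).2 (QQ a s) (H.fam.mon s) (H.fam.irr s) ((H.mem.1 s.2).2.2.mul_left _)
    rw [sy_eq H.hk (H.fam.mon s) (H.fam.irr s), sy_eq H.hk (H.fam.mon s) (H.fam.irr s)] at h1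
    exact h1
  have hdd : ∀ i, ((P i).natDegree : F2) = ((P i₀).natDegree : F2) := fun i => deg_F2 (hs i i₀).1
  have hfam : Fam (Sum.elim (Sum.elim T P) (QQ a)) := by
    refine ⟨?_, ?_, ?_⟩
    · rintro ((j | i) | s)
      · exact (h.mi j).1
      · exact (hP i).1
      · exact H.fam.mon s
    · rintro ((j | i) | s)
      · exact (h.mi j).2
      · exact (hP i).2.1
      · exact H.fam.irr s
    · rintro ((j | i) | s) ((j' | i') | s') he
      · exact congrArg _ (congrArg _ (h.inj he))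
      · exact absurd he.symm (hnT i' j)
      · exact absurd (h.fam.inj (a₁ := Sum.inl j) (a₂ := Sum.inr s') he) (by simp)
      · exact absurd he (hnT i j')
      · exact congrArg _ (congrArg _ (hinj he))
      · exact absurd he (hnQ i s')
      · exact absurd (h.fam.inj (a₁ := Sum.inr s) (a₂ := Sum.inl j') he) (by simp)
      · exact absurd he.symm (hnQ i' s)
      · exact congrArg _ (H.fam.inj he)
  have hcl : Y164.HG.cl (H.dat σ) (QQ a) (Sum.elim T P) := by
    intro s
    rw [Fintype.sum_sum_type]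
    have h1 : ∑ i : κ, BT (QQ a) (Sum.elim T P) (Sum.inr i) s = 0 := by
      have : ∀ i : κ, BT (QQ a) (Sum.elim T P) (Sum.inr i) s = L (P i₀) (QQ a s) := fun i => hdQ i s
      rw [sum_congr rfl fun i _ => this i, sum_const, card_univ, nsmul_eq_mul, hκ', zero_mul]
    rw [h1, add_zero]
    exact h.cl s
  have hpar : ∑ x, (((Sum.elim T P) x).natDegree : F2) + (N : F2) = 1 := by
    rw [Fintype.sum_sum_type]
    have h1 : ∑ i : κ, (((Sum.elim T P) (Sum.inr i)).natDegree : F2) = 0 := by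
      have : ∀ i : κ, (((Sum.elim T P) (Sum.inr i)).natDegree : F2) = ((P i₀).natDegree : F2) :=
        fun i => hdd i
      rw [sum_congr rfl fun i _ => this i, sum_const, card_univ, nsmul_eq_mul, hκ', zero_mul]
    rw [h1, add_zero]
    exact h.par
  have hA : AT (Sum.elim T P) = AA (AT T) (fun i i' => L (P i) (P i')) (fun j => L (T j) (P i₀)) := by
    funext x y
    rcases x with j | i <;> rcases y with j' | i'
    · rfl
    · exact hdT i' j
    · show L (P i) (T j') = L (T j') (P i₀)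
      rw [L_comm H.hm, hdT]
    · rfl
  have hB : BT (QQ a) (Sum.elim T P) = BB (BT (QQ a) T) (fun s => L (P i₀) (QQ a s)) := by
    funext x s
    rcases x with j | i
    · rfl
    · exact hdQ i s
  have hd : (fun x => (((Sum.elim T P) x).natDegree : F2)) =
      dd (fun i => ((T i).natDegree : F2)) ((P i₀).natDegree : F2) := by
    funext x
    rcases x with j | i
    · rfl
    · exact hdd i
  have hc : ∀ i i' : κ, L (P i) (P i') = L (P i') (P i) := fun i i' => L_comm H.hm _ _
  constructor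
  · intro h'
    have ht := h'.triv
    rw [hA, hB, hd] at ht
    exact crit_of_triv hκ' hc ht
  · intro hC
    refine ⟨hfam, hcl, hpar, ?_⟩
    rw [hA, hB, hd]
    exact triv_of_crit hκ' (fun i j => AT_comm H.hm T i j) hc h.par h.triv hC

variable (H) in
include H in
/-- the product of a family of type `ST` has the same symbols -/
theorem L_mul_prod {ι κ : Type} [Fintype ι] [Fintype κ] {T : ι → k[X]}
    (hT : ∀ i, (T i).Monic ∧ Irreducible (T i)) (hTQ : ∀ i s, T i ≠ QQ a s)
    (hκ : Even (Fintype.card κ)) {P : κ → k[X]} (hP : ∀ i, Nw a (∏ i, T i) (P i))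
    (hs : ∀ i i', ST a (∏ i, T i) (P i) (P i')) (i₀ : κ) (s : Tau a) :
    L (∏ x, (Sum.elim T P) x) (QQ a s) = L (∏ i, T i) (QQ a s) := by
  have hκ' : (Fintype.card κ : F2) = 0 := card_F2 hκ
  have c1 : ∀ i, IsCoprime (T i) (QQ a s) := by
    intro i
    apply coprime_of_not_dvd (H.fam.irr s)
    intro hd
    exact hTQ i s (eq_of_monic_of_associated (H.fam.mon s) (hT i).1
      ((H.fam.irr s).associated_of_dvd (hT i).2 hd)).symm
  have c2 : ∀ i, IsCoprime (P i) (QQ a s) := by
    intro i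
    apply coprime_of_not_dvd (H.fam.irr s)
    intro hd
    have h1 := eq_of_monic_of_associated (H.fam.mon s) (hP i).1
      ((H.fam.irr s).associated_of_dvd (hP i).2.1 hd)
    exact (hP i).2.2 (h1 ▸ ((H.mem.1 s.2).2.2).mul_left _)
  rw [L_prod_left (H.fam.irr s).ne_zero, L_prod_left (H.fam.irr s).ne_zero
    (fun i _ => (hT i).1.ne_zero) (fun i _ => c1 i), Fintype.sum_sum_type]
  · have h1 : ∑ i : κ, L ((Sum.elim T P) (Sum.inr i)) (QQ a s) = 0 := by
      have : ∀ i : κ, L ((Sum.elim T P) (Sum.inr i)) (QQ a s) = L (P i₀) (QQ a s) := by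
        intro i
        have h1 := (hs i i₀).2 (QQ a s) (H.fam.mon s) (H.fam.irr s) ((H.mem.1 s.2).2.2.mul_left _)
        rw [sy_eq H.hk (H.fam.mon s) (H.fam.irr s), sy_eq H.hk (H.fam.mon s) (H.fam.irr s)] at h1
        exact h1
      rw [sum_congr rfl fun i _ => this i, sum_const, card_univ, nsmul_eq_mul, hκ', zero_mul]
    rw [h1, add_zero]
    rfl
  · rintro (j | i) _
    · exact (hT j).1.ne_zero
    · exact (hP i).1.ne_zero
  · rintro (j | i) _
    · exact c1 j
    · exact c2 i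

/-- **The exact criterion**, for families. -/
theorem GG_iff {D : k[X]} (hD : GG H D) {κ : Type} [Fintype κ] (hκ : Even (Fintype.card κ))
    {P : κ → k[X]} (hP : ∀ i, Nw a D (P i)) (hinj : Function.Injective P)
    (hs : ∀ i i', ST a D (P i) (P i')) : GG H (D * ∏ i, P i) ↔
      ∀ x : κ → Fin n → ZMod 2, (∀ i, ∑ l, x i l = 0) →
        (∀ i l, ∑ i', sy (P i) (P i') * (x i' l + x i l) = My a D (P i) (x i) l) → x = 0 := by
  obtain ⟨ι, _, T, σ, rfl, h⟩ := hD
  rcases isEmpty_or_nonempty κ with he | ⟨⟨i₀⟩⟩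
  · constructor
    · intro _ x _ _
      funext i
      exact (IsEmpty.false i).elim
    · intro _
      have h1 : ∏ i, P i = 1 := Fintype.prod_empty _
      rw [h1, mul_one]
      exact ⟨ι, inferInstance, T, σ, rfl, h⟩
  have hnT : ∀ i j, P i ≠ T j := by
    intro i j hij
    exact (hP i).2.2 (hij ▸ (dvd_prod_of_mem T (mem_univ j)).mul_right _)
  have hnQ : ∀ i s, P i ≠ QQ a s := by
    intro i s his
    exact (hP i).2.2 (his ▸ ((H.mem.1 s.2).2.2).mul_left _)
  have hTQ : ∀ j s, T j ≠ QQ a s := by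
    intro j s he
    exact absurd (h.fam.inj (a₁ := Sum.inl j) (a₂ := Sum.inr s) he) (by simp)
  have hprod : (∏ i, T i) * ∏ i, P i = ∏ x, (Sum.elim T P) x := by
    rw [Fintype.prod_sum_type]
    rfl
  have hmi : ∀ x, ((Sum.elim T P) x).Monic ∧ Irreducible ((Sum.elim T P) x) := by
    rintro (j | i)
    · exact h.mi j
    · exact ⟨(hP i).1, (hP i).2.1⟩
  have hinj' : Function.Injective (Sum.elim T P) := by
    rintro (j | i) (j' | i') he
    · exact congrArg _ (h.inj he)
    · exact absurd he.symm (hnT i' j)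
    · exact absurd he (hnT i j')
    · exact congrArg _ (hinj he)
  have step1 : GG H ((∏ i, T i) * ∏ i, P i) ↔ Fm H (Sum.elim T P) σ := by
    rw [hprod]
    constructor
    · intro hg
      obtain ⟨σ', h'⟩ := Fm.of_GG hmi hinj' hg
      have : σ' = σ := h'.sig_eq h fun s => L_mul_prod H h.mi hTQ hκ hP hs i₀ s
      rw [← this]
      exact h'
    · intro h'
      exact ⟨ι ⊕ κ, inferInstance, _, σ, rfl, h'⟩
  rw [step1, h.iff_sum hκ hP hinj hs i₀]
  -- coordinates
  have hdT : ∀ i, (fun j => L (T j) (P i₀)) = (fun j => L (T j) (P i)) := by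
    intro i
    funext j
    have h1 := (hs i i₀).2 (T j) (h.mi j).1 (h.mi j).2 ((dvd_prod_of_mem T (mem_univ j)).mul_right _)
    rw [sy_eq H.hk (h.mi j).1 (h.mi j).2, sy_eq H.hk (h.mi j).1 (h.mi j).2] at h1
    rw [L_comm H.hm, ← h1, L_comm H.hm]
  have hdQ : ∀ i, (fun s => L (P i₀) (QQ a s)) = (fun s => L (P i) (QQ a s)) := by
    intro i
    funext s
    have h1 := (hs i i₀).2 (QQ a s) (H.fam.mon s) (H.fam.irr s) ((H.mem.1 s.2).2.2.mul_left _)
    rw [sy_eq H.hk (H.fam.mon s) (H.fam.irr s), sy_eq H.hk (H.fam.mon s) (H.fam.irr s)] at h1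
    exact h1.symm
  have hdd : ∀ i, ((P i₀).natDegree : F2) = ((P i).natDegree : F2) := fun i => deg_F2 (hs i₀ i).1
  have hMM : ∀ (i : κ) (x : EW n) (l : Fin n), (MM (H.dat σ) (fun j => L (T j) (P i₀))
      (fun s => L (P i₀) (QQ a s)) ((P i₀).natDegree : F2) x).1 l = My a (∏ i, T i) (P i) x.1 l := by
    intro i x l
    rw [hdT i, hdQ i, hdd i]
    exact MM_coord H h.mi (hP i).1 (hP i).2.1 (hnT i) (hnQ i) σ x l
  have hsum : ∀ (f : κ → EW n) (l : Fin n), (∑ s, f s).1 l = ∑ s, (f s).1 l := by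
    intro f l
    have h1 := map_sum ((LinearMap.proj l : (Fin n → F2) →ₗ[F2] F2).comp (EW n).subtype) f univ
    exact h1
  have hLs : ∀ i i', L (P i) (P i') = sy (P i) (P i') := by
    intro i i'
    rw [sy_eq H.hk (hP i).1 (hP i).2.1, L_comm H.hm]
  have heq : ∀ (x : κ → EW n), (∀ i, ∑ i', L (P i) (P i') • (x i' + x i) =
      MM (H.dat σ) (fun j => L (T j) (P i₀)) (fun s => L (P i₀) (QQ a s))
        ((P i₀).natDegree : F2) (x i)) ↔
      ∀ i l, ∑ i', sy (P i) (P i') * ((x i').1 l + (x i).1 l) = My a (∏ i, T i) (P i) (x i).1 l := by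
    intro x
    refine forall_congr' fun i => ?_
    rw [Subtype.ext_iff, funext_iff]
    refine forall_congr' fun l => ?_
    rw [hMM i, hsum]
    have h1 : ∀ i', (L (P i) (P i') • (x i' + x i)).1 l =
        sy (P i) (P i') * ((x i').1 l + (x i).1 l) := by
      intro i'
      rw [hLs]
      rfl
    rw [sum_congr rfl fun i' _ => h1 i']
  constructor
  · intro hC x hx h1
    have h2 := hC (fun i => ⟨x i, hx i⟩) ((heq _).2 h1)
    funext i
    exact congrArg Subtype.val (congrFun h2 i)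
  · intro hC x h1
    have h2 := hC (fun i => (x i).1) (fun i => (x i).2) ((heq x).1 h1)
    funext i
    exact Subtype.ext (congrFun h2 i)

end

end Pool.Agent.U880.HJ
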