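import Pool.Agent.U880.CTA.Ram

/-!
Ramsey's theorem for symmetric functions of pairs, with classes; double counting (as in
`Pool/Agent/U880/CTA/Ram.lean`, after helper693), for an arbitrary type.
-/

set_option autoImplicit false
set_option linter.all false

open scoped Classical

namespace Pool.Agent.U880.HJ

open Finset

/-- double counting (after helper693) -/
theorem count {V : Type} (S : Finset V) (k N : ℕ) (Q : Finset V → Prop) (hkN : k ≤ N)
    (hN : N ≤ S.card) (h : ∀ B ⊆ S, B.card = N → ∃ A ⊆ B, A.card = k ∧ Q A) :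
    S.card.choose k ≤ N.choose k * ((S.powersetCard k).filter Q).card := by
  set n := S.card with hn
  have h1 : (S.powersetCard N).card ≤
      ((S.powersetCard k).filter Q).card * (n - k).choose (N - k) := by
    have h2 : ∑ B ∈ S.powersetCard N, 1 ≤ ∑ B ∈ S.powersetCard N,
        (((S.powersetCard k).filter Q).filter fun A => A ⊆ B).card := by
      refine sum_le_sum fun B hB => ?_
      obtain ⟨hB1, hB2⟩ := mem_powersetCard.1 hB
      obtain ⟨A, hA, hAk, hQ⟩ := h B hB1 hB2
      refine card_pos.2 ⟨A, ?_⟩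
      rw [mem_filter, mem_filter, mem_powersetCard]
      exact ⟨⟨⟨hA.trans hB1, hAk⟩, hQ⟩, hA⟩
    rw [sum_const, smul_eq_mul, mul_one] at h2
    refine h2.trans ?_
    have h3 : ∑ B ∈ S.powersetCard N,
        (((S.powersetCard k).filter Q).filter fun A => A ⊆ B).card =
        ∑ A ∈ (S.powersetCard k).filter Q, ((S.powersetCard N).filter fun B => A ⊆ B).card := by
      simp only [card_filter]
      rw [sum_comm]
    rw [h3, ← smul_eq_mul, ← sum_const]
    refine sum_le_sum fun A hA => ?_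
    obtain ⟨hA1, -⟩ := mem_filter.1 hA
    obtain ⟨hA2, hA3⟩ := mem_powersetCard.1 hA1
    have h4 : ((S.powersetCard N).filter fun B => A ⊆ B).card ≤
        ((S \ A).powersetCard (N - k)).card := by
      refine card_le_card_of_injOn (fun B => B \ A) ?_ ?_
      · intro B hB
        obtain ⟨hB1, hB2⟩ := mem_filter.1 hB
        obtain ⟨hB3, hB4⟩ := mem_powersetCard.1 hB1
        refine mem_coe.2 (mem_powersetCard.2 ⟨sdiff_subset_sdiff hB3 subset_rfl, ?_⟩)
        rw [card_sdiff_of_subset hB2, hB4, hA3]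
      · intro B hB B' hB' he
        have e1 := (mem_filter.1 (mem_coe.1 hB)).2
        have e2 := (mem_filter.1 (mem_coe.1 hB')).2
        have he' : B \ A = B' \ A := he
        rw [← sdiff_union_of_subset e1, ← sdiff_union_of_subset e2, he']
    refine h4.trans ?_
    rw [card_powersetCard, card_sdiff_of_subset hA2, hA3]
  rw [card_powersetCard] at h1
  have h5 : n.choose N * N.choose k = n.choose k * (n - k).choose (N - k) :=
    Nat.choose_mul hkN
  have h6 : 0 < (n - k).choose (N - k) := Nat.choose_pos (by omega)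
  have h7 : n.choose k * (n - k).choose (N - k) ≤
      (N.choose k * ((S.powersetCard k).filter Q).card) * (n - k).choose (N - k) := by
    rw [← h5]
    calc n.choose N * N.choose k ≤
        (((S.powersetCard k).filter Q).card * (n - k).choose (N - k)) * N.choose k :=
          Nat.mul_le_mul_right _ h1
      _ = _ := by ring
  exact Nat.le_of_mul_le_mul_right h7 h6

/-- the finite theorem -/
theorem ram_fin {V C F : Type} [Fintype C] [Nonempty C] [Fintype F] (hF : 2 ≤ Fintype.card F)
    (κ : V → C) (f : V → V → F) (S : Finset V) (hf : ∀ p ∈ S, ∀ r ∈ S, f p r = f r p) (k : ℕ)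
    (hS : Fintype.card C * Fintype.card F ^ (Fintype.card F * k) ≤ S.card) :
    ∃ A ⊆ S, A.card = k ∧ (∃ x, ∀ p ∈ A, κ p = x) ∧
      ∃ y, ∀ p ∈ A, ∀ r ∈ A, p ≠ r → f p r = y := by
  have h1 : ∃ y ∈ (univ : Finset C),
      Fintype.card F ^ (Fintype.card F * k) ≤ (S.filter fun q => κ q = y).card := by
    refine exists_le_card_fiber_of_mul_le_card_of_maps_to (fun q _ => mem_univ _)
      ⟨Classical.arbitrary C, mem_univ _⟩ ?_
    rw [card_univ]
    exact hS
  obtain ⟨x, -, hx⟩ := h1
  obtain ⟨a, A, hA, hAk, hAp⟩ := Pool.Agent.U880.CTA.ramsey_multi hF f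
    (Fintype.card F * k) (fun _ => k) (by rw [sum_const, card_univ, smul_eq_mul])
    (S.filter fun q => κ q = x) hx (fun p hp q hq => hf p (mem_filter.1 hp).1 q (mem_filter.1 hq).1)
  exact ⟨A, hA.trans (filter_subset _ _), hAk, ⟨x, fun p hp => (mem_filter.1 (hA hp)).2⟩, a, hAp⟩

/-- the infinite theorem -/
theorem ram_inf {V C F : Type} [Finite C] [Finite F] (κ : V → C) (f : V → V → F) (S : Set V)
    (hf : ∀ p ∈ S, ∀ r ∈ S, f p r = f r p) (hS : S.Infinite) :
    ∃ T ⊆ S, T.Infinite ∧ (∃ x, ∀ p ∈ T, κ p = x) ∧ ∃ y, ∀ p ∈ T, ∀ r ∈ T, p ≠ r → f p r = y := by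
  have : Infinite S := hS.to_subtype
  obtain ⟨x, hx⟩ := Finite.exists_infinite_fiber (fun p : S => κ p)
  have hinf : Infinite ((fun p : S => κ p) ⁻¹' {x}) := hx
  obtain ⟨H, c, hH, h⟩ := Pool.Agent.H330.infinite_ramsey 2
    (fun w : Finset ((fun p : S => κ p) ⁻¹' {x}) =>
      {y : F | ∃ p ∈ w, ∃ r ∈ w, p ≠ r ∧ y = f ((p : S) : V) ((r : S) : V)})
  have hinj : Function.Injective (fun z : ((fun p : S => κ p) ⁻¹' {x}) => ((z : S) : V)) := by
    intro a b hab
    exact Subtype.ext (Subtype.ext hab)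
  have key : ∀ p ∈ H, ∀ r ∈ H, p ≠ r → c = {f ((p : S) : V) ((r : S) : V)} := by
    intro p hp r hr hne
    rw [← h {p, r} (card_pair hne) (by
      intro z hz
      rcases mem_insert.1 (mem_coe.1 hz) with rfl | hz'
      · exact hp
      · rw [mem_singleton.1 hz']
        exact hr)]
    ext y
    simp only [Set.mem_setOf_eq, Set.mem_singleton_iff]
    constructor
    · rintro ⟨p', hp', r', hr', hlt, rfl⟩
      rcases mem_insert.1 hp' with e | hp'' <;> rcases mem_insert.1 hr' with e' | hr''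
      · exact absurd (e.trans e'.symm) hlt
      · rw [e, mem_singleton.1 hr'']
      · rw [mem_singleton.1 hp'', e']
        exact hf _ r.1.2 _ p.1.2
      · exact absurd ((mem_singleton.1 hp'').trans (mem_singleton.1 hr'').symm) hlt
    · rintro rfl
      exact ⟨p, mem_insert_self _ _, r, mem_insert_of_mem (mem_singleton_self _), hne, rfl⟩
  refine ⟨(fun z : ((fun p : S => κ p) ⁻¹' {x}) => ((z : S) : V)) '' H, ?_,
    hH.image hinj.injOn, ⟨x, ?_⟩, ?_⟩
  · rintro _ ⟨z, -, rfl⟩
    exact z.1.2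
  · rintro _ ⟨z, -, rfl⟩
    exact z.2
  · obtain ⟨p₀, hp₀, r₀, hr₀, hne₀⟩ := hH.nontrivial
    refine ⟨f ((p₀ : S) : V) ((r₀ : S) : V), ?_⟩
    rintro _ ⟨p, hp, rfl⟩ _ ⟨r, hr, rfl⟩ hpr
    have hpr' : p ≠ r := fun e => hpr (by rw [e])
    have e1 := key p hp r hr hpr'
    have e2 := key p₀ hp₀ r₀ hr₀ hne₀
    exact Set.singleton_injective (e1.symm.trans e2)

end Pool.Agent.U880.HJ
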