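import Pool.Agent.U880.HJ.Ar2
import Pool.Agent.U880.HJ.Ram

/-!
Sets of primes: the criterion, homogeneous sets, pairs, counting.
-/

set_option autoImplicit false
set_option linter.all false

namespace Pool.Agent.U880.HJ

open Finset Polynomial Pool.Agent.Y164.HG
open Pool.Agent.Y164.PS (L ch Fam L_comm L_mul_left L_prod_left L_C L_pow coprime_C
  coprime_of_not_dvd L_eq_zero_iff L_of_not_coprime L_congr el)
open scoped Classical

section defs

variable {k : Type} [Field k] {n : ℕ} (a : Fin n → k[X]) (D : k[X])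

/-- admissible primes -/
def Adm (P : k[X]) : Prop := ∀ x : Fin n → ZMod 2, ∑ l, x l = 0 → (∀ l, My a D P x l = 0) → x = 0

/-- the criterion -/
def Cr (A : Finset k[X]) : Prop :=
  ∀ x : k[X] → Fin n → ZMod 2, (∀ P ∈ A, ∑ l, x P l = 0) →
    (∀ P ∈ A, ∀ l, ∑ P' ∈ A, sy P P' * (x P' l + x P l) = My a D P (x P) l) → ∀ P ∈ A, x P = 0

end defs

section

variable {k : Type} [Field k] {n : ℕ} {a : Fin n → k[X]} {D : k[X]}

theorem My_add (P : k[X]) (x y : Fin n → ZMod 2) (l : Fin n) :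
    My a D P (x + y) l = My a D P x l + My a D P y l := by
  have h : ∀ l', sy P (a l - a l') * ((x + y) l + (x + y) l') =
      sy P (a l - a l') * (x l + x l') + sy P (a l - a l') * (y l + y l') := by
    intro l'
    simp only [Pi.add_apply]
    ring
  simp only [My]
  rw [sum_congr rfl fun l' _ => h l', sum_add_distrib, Pi.add_apply]
  ring

theorem eq_of_add_zero {x y : Fin n → ZMod 2} (h : x + y = 0) : x = y := by
  funext l
  have h1 := congrFun h l
  have h2 : ∀ a b : F2, a + b = 0 → a = b := by decide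
  exact h2 _ _ h1

theorem add_self_fun (x : Fin n → ZMod 2) : x + x = 0 := by
  funext l
  exact F2_add_self _

variable [Fintype k] [DecidableEq k] {N : ℕ} {H : Geo a N} [Fact (Odd n)]

/-- The matrix depends only on the type. -/
theorem My_ST (hD : GG H D) {P P' : k[X]} (hP : Nw a D P) (hP' : Nw a D P') (hs : ST a D P P')
    {x : Fin n → ZMod 2} (hx : ∑ l, x l = 0) (l : Fin n) : My a D P x l = My a D P' x l := by
  obtain ⟨ι, _, T, σ, rfl, h⟩ := hD
  have hnT : ∀ {P : k[X]}, Nw a (∏ i, T i) P → ∀ j, P ≠ T j := by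
    intro P hP j hij
    exact hP.2.2 (hij ▸ (dvd_prod_of_mem T (mem_univ j)).mul_right _)
  have hnQ : ∀ {P : k[X]}, Nw a (∏ i, T i) P → ∀ s, P ≠ QQ a s := by
    intro P hP s his
    exact hP.2.2 (his ▸ ((H.mem.1 s.2).2.2).mul_left _)
  have h1 := MM_coord H h.mi hP.1 hP.2.1 (hnT hP) (hnQ hP) σ ⟨x, hx⟩ l
  have h2 := MM_coord H h.mi hP'.1 hP'.2.1 (hnT hP') (hnQ hP') σ ⟨x, hx⟩ l
  rw [← h1, ← h2]
  have e1 : (fun j => L (T j) P) = (fun j => L (T j) P') := by
    funext j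
    have h1 := hs.2 (T j) (h.mi j).1 (h.mi j).2 ((dvd_prod_of_mem T (mem_univ j)).mul_right _)
    rw [sy_eq H.hk (h.mi j).1 (h.mi j).2, sy_eq H.hk (h.mi j).1 (h.mi j).2] at h1
    rw [L_comm H.hm, h1, L_comm H.hm]
  have e2 : (fun s => L P (QQ a s)) = (fun s => L P' (QQ a s)) := by
    funext s
    have h1 := hs.2 (QQ a s) (H.fam.mon s) (H.fam.irr s) ((H.mem.1 s.2).2.2.mul_left _)
    rw [sy_eq H.hk (H.fam.mon s) (H.fam.irr s), sy_eq H.hk (H.fam.mon s) (H.fam.irr s)] at h1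
    exact h1
  rw [e1, e2, deg_F2 hs.1]

/-- **The exact criterion**, for sets. -/
theorem GG_set (hD : GG H D) {A : Finset k[X]} (hA : Even A.card) (hP : ∀ P ∈ A, Nw a D P)
    (hs : ∀ P ∈ A, ∀ P' ∈ A, ST a D P P') : GG H (D * ∏ P ∈ A, P) ↔ Cr a D A := by
  have hc : Even (Fintype.card A) := by rw [Fintype.card_coe]; exact hA
  have h1 := GG_iff hD (κ := A) hc (P := fun i => i.1) (fun i => hP i.1 i.2)
    Subtype.val_injective (fun i i' => hs i.1 i.2 i'.1 i'.2)
  have h2 : ∏ i : A, i.1 = ∏ P ∈ A, P := prod_coe_sort A (fun P => P)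
  rw [h2] at h1
  rw [h1]
  have hsum : ∀ (P : k[X]) (x : k[X] → Fin n → ZMod 2) (l : Fin n),
      ∑ i' : A, sy P i'.1 * (x i'.1 l + x P l) = ∑ P' ∈ A, sy P P' * (x P' l + x P l) :=
    fun P x l => sum_coe_sort A (fun P' => sy P P' * (x P' l + x P l))
  constructor
  · intro h x hx h3 P hPA
    have h4 := h (fun i => x i.1) (fun i => hx i.1 i.2) (fun i l => by
      rw [hsum]
      exact h3 i.1 i.2 l)
    exact congrFun h4 ⟨P, hPA⟩
  · intro h x hx h3
    set y : k[X] → Fin n → ZMod 2 := fun P => if hP : P ∈ A then x ⟨P, hP⟩ else 0 with hy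
    have hyx : ∀ i : A, y i.1 = x i := fun i => by
      rw [hy]
      exact dif_pos i.2
    have h4 := h y (fun P hPA => by
      have := hyx ⟨P, hPA⟩
      rw [show y P = x ⟨P, hPA⟩ from this]
      exact hx _) (fun P hPA l => by
      have h5 := h3 ⟨P, hPA⟩ l
      rw [← hyx ⟨P, hPA⟩] at h5
      simp only [← hyx] at h5
      rw [← hsum]
      exact h5)
    funext i
    rw [← hyx i]
    exact h4 i.1 i.2

/-- homogeneous sets of admissible primes satisfy the criterion -/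
theorem Cr_of_hom (hD : GG H D) {A : Finset k[X]} (hA : Even A.card) (hP : ∀ P ∈ A, Nw a D P)
    (hs : ∀ P ∈ A, ∀ P' ∈ A, ST a D P P') {γ : F2} (hγ : ∀ P ∈ A, ∀ P' ∈ A, P ≠ P' → sy P P' = γ)
    (hadm : ∀ P ∈ A, Adm a D P) : Cr a D A := by
  intro x hx h P₀ hP₀
  set X : Fin n → ZMod 2 := ∑ P' ∈ A, x P' with hX
  have hcard : ∀ y : Fin n → ZMod 2, ∑ _P' ∈ A, y = 0 := by
    intro y
    funext l
    rw [sum_const, Pi.smul_apply, nsmul_eq_mul, card_F2 hA, zero_mul]
    rfl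
  have h1 : ∀ P ∈ A, ∀ l, My a D P (x P) l = γ * X l := by
    intro P hPA l
    rw [← h P hPA l]
    have h2 : ∀ P' ∈ A, sy P P' * (x P' l + x P l) = γ * (x P' l + x P l) := by
      intro P' hP'
      by_cases he : P = P'
      · rw [← he, F2_add_self, mul_zero, mul_zero]
      · rw [hγ P hPA P' hP' he]
    rw [sum_congr rfl h2, ← mul_sum, sum_add_distrib]
    congr 1
    have h3 := congrFun (hcard (x P)) l
    rw [Finset.sum_apply] at h3
    rw [h3, hX, Finset.sum_apply]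
    exact add_zero _
  have h2 : ∀ P ∈ A, x P = x P₀ := by
    intro P hPA
    apply eq_of_add_zero
    apply hadm P hPA
    · have : ∑ l, (x P + x P₀) l = ∑ l, x P l + ∑ l, x P₀ l := by
        rw [← sum_add_distrib]
        rfl
      rw [this, hx P hPA, hx P₀ hP₀, add_zero]
    · intro l
      rw [My_add, h1 P hPA, My_ST hD (hP P hPA) (hP P₀ hP₀) (hs P hPA P₀ hP₀) (hx P₀ hP₀), h1 P₀ hP₀]
      exact F2_add_self _
  have h3 : X = 0 := by
    rw [hX, sum_congr rfl h2]
    exact hcard _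
  apply hadm P₀ hP₀ _ (hx P₀ hP₀)
  intro l
  rw [h1 P₀ hP₀, h3]
  exact mul_zero _

/-- the criterion implies that the primes are admissible -/
theorem adm_of_Cr (hD : GG H D) {A : Finset k[X]} (hP : ∀ P ∈ A, Nw a D P)
    (hs : ∀ P ∈ A, ∀ P' ∈ A, ST a D P P') (h : Cr a D A) : ∀ P ∈ A, Adm a D P := by
  intro P hPA y hy hMy
  refine h (fun _ => y) (fun _ _ => hy) (fun P' hP' l => ?_) P hPA
  have h1 : ∑ P'' ∈ A, sy P' P'' * (y l + y l) = 0 := by
    refine sum_eq_zero fun P'' _ => ?_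
    rw [F2_add_self, mul_zero]
  show ∑ P'' ∈ A, sy P' P'' * (y l + y l) = My a D P' y l
  rw [h1, ← My_ST hD (hP P hPA) (hP P' hP') (hs P hPA P' hP') hy, hMy]

omit [Fintype k] [DecidableEq k] [Fact (Odd n)] in
theorem ST.refl (P : k[X]) : ST a D P P := ⟨Iff.rfl, fun _ _ _ _ => rfl⟩

omit [Fintype k] [DecidableEq k] [Fact (Odd n)] in
theorem ST.symm {P P' : k[X]} (h : ST a D P P') : ST a D P' P :=
  ⟨h.1.symm, fun R h1 h2 h3 => (h.2 R h1 h2 h3).symm⟩

/-- pairs -/
theorem GG_pair (hD : GG H D) {P P' : k[X]} (hP : Nw a D P) (hP' : Nw a D P') (hne : P ≠ P')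
    (hs : ST a D P P') : GG H (D * (P * P')) ↔ Adm a D P := by
  have hA : Even ({P, P'} : Finset k[X]).card := by
    rw [card_pair hne]
    decide
  have h1 : ∀ R ∈ ({P, P'} : Finset k[X]), R = P ∨ R = P' := fun R hR => by
    rcases mem_insert.1 hR with h | h
    · exact Or.inl h
    · exact Or.inr (mem_singleton.1 h)
  have hN : ∀ R ∈ ({P, P'} : Finset k[X]), Nw a D R := by
    intro R hR
    rcases h1 R hR with rfl | rfl
    · exact hP
    · exact hP'
  have hS : ∀ R ∈ ({P, P'} : Finset k[X]), ∀ R' ∈ ({P, P'} : Finset k[X]), ST a D R R' := by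
    intro R hR R' hR'
    rcases h1 R hR with rfl | rfl <;> rcases h1 R' hR' with rfl | rfl
    · exact ST.refl _
    · exact hs
    · exact hs.symm
    · exact ST.refl _
  have h2 := GG_set hD hA hN hS
  rw [prod_pair hne] at h2
  rw [h2]
  constructor
  · intro h
    exact adm_of_Cr hD hN hS h P (mem_insert_self _ _)
  · intro h
    apply Cr_of_hom hD hA hN hS (γ := sy P P')
    · intro R hR R' hR' hne'
      rcases h1 R hR with rfl | rfl <;> rcases h1 R' hR' with rfl | rfl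
      · exact absurd rfl hne'
      · rfl
      · exact sy_comm H.hk H.hm hP'.1 hP'.2.1 hP.1 hP.2.1
      · exact absurd rfl hne'
    · intro R hR x hx hMx
      apply h x hx
      intro l
      rw [My_ST hD hP (hN R hR) (hS _ (mem_insert_self _ _) R hR) hx]
      exact hMx l

/-- the primes dividing `D` and the differences -/
abbrev Bd (a : Fin n → k[X]) (D : k[X]) : Type :=
  {R : k[X] // R.Monic ∧ Irreducible R ∧ R ∣ D * Del a}

theorem Bd_finite (hD : GG H D) : Finite (Bd a D) := by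
  obtain ⟨ι, _, T, σ, rfl, h⟩ := hD
  have h0 : (∏ i, T i) * Del a ≠ 0 :=
    mul_ne_zero (prod_ne_zero_iff.2 fun i _ => (h.mi i).1.ne_zero) H.del_ne
  have h1 : Set.Finite {R : k[X] | R.Monic ∧ Irreducible R ∧ R ∣ (∏ i, T i) * Del a} := by
    apply Set.Finite.subset (Finset.finite_toSet
      (Pool.Agent.H341R2.Sharp.Irr k ((∏ i, T i) * Del a).natDegree))
    rintro R ⟨h1, h2, h3⟩
    exact Pool.Agent.H341R2.Sharp.mem_Irr.2 ⟨h1, h2, natDegree_le_of_dvd h3 h0⟩
  exact h1.to_subtype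

/-- the type of a prime -/
noncomputable def tp (a : Fin n → k[X]) (D P : k[X]) : (Bd a D → F2) × F2 :=
  (fun R => sy R.1 P, (P.natDegree : F2))

omit [Fintype k] [DecidableEq k] [Fact (Odd n)] in
theorem ST_of_tp {P P' : k[X]} (h : tp a D P = tp a D P') : ST a D P P' := by
  constructor
  · have h1 : (P.natDegree : F2) = (P'.natDegree : F2) := congrArg Prod.snd h
    rw [← ZMod.natCast_eq_zero_iff_even, ← ZMod.natCast_eq_zero_iff_even, h1]
  · intro R h1 h2 h3
    exact congrFun (congrArg Prod.fst h) ⟨R, h1, h2, h3⟩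

/-- **Counting.** -/
theorem GG_count (hD : GG H D) (S : Finset k[X]) (hS : ∀ P ∈ S, Nw a D P) (hadm : ∀ P ∈ S, Adm a D P)
    (m : ℕ) (hB : 2 ^ (4 * m + Nat.card (Bd a D) + 1) ≤ S.card) :
    S.card.choose (2 * m) ≤ (2 ^ (4 * m + Nat.card (Bd a D) + 1)).choose (2 * m) *
      ((S.powersetCard (2 * m)).filter fun A => GG H (D * ∏ P ∈ A, P)).card := by
  haveI := Bd_finite hD
  letI : Fintype (Bd a D) := Fintype.ofFinite _
  have hcC : Fintype.card ((Bd a D → F2) × F2) * Fintype.card F2 ^ (Fintype.card F2 * (2 * m)) =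
      2 ^ (4 * m + Nat.card (Bd a D) + 1) := by
    rw [Fintype.card_prod, Fintype.card_fun, ZMod.card, Nat.card_eq_fintype_card, ← pow_succ,
      ← pow_add]
    congr 1
    ring
  apply count S (2 * m) _ _ _ hB
  · intro B hBS hBc
    obtain ⟨A, hA, hAc, ⟨x, hx⟩, y, hy⟩ := ram_fin (V := k[X]) (C := (Bd a D → F2) × F2) (F := F2)
      (by rw [ZMod.card]) (tp a D) sy B (fun p hp r hr =>
        sy_comm H.hk H.hm (hS p (hBS hp)).1 (hS p (hBS hp)).2.1 (hS r (hBS hr)).1 (hS r (hBS hr)).2.1)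
      (2 * m) (by rw [hcC, hBc])
    refine ⟨A, hA, hAc, ?_⟩
    have hAS : A ⊆ S := hA.trans hBS
    have hev : Even A.card := by
      rw [hAc]
      exact even_two_mul m
    have hST : ∀ P ∈ A, ∀ P' ∈ A, ST a D P P' := fun P hP P' hP' =>
      ST_of_tp ((hx P hP).trans (hx P' hP').symm)
    rw [GG_set hD hev (fun P hP => hS P (hAS hP)) hST]
    exact Cr_of_hom hD hev (fun P hP => hS P (hAS hP)) hST hy fun P hP => hadm P (hAS hP)
  · have h1 : 2 * m ≤ 2 ^ (4 * m) := by
      have : 4 * m < 2 ^ (4 * m) := Nat.lt_two_pow_self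
      omega
    refine h1.trans (Nat.pow_le_pow_right (by norm_num) (by omega))

/-- **Infinite sets.** -/
theorem GG_inf (hD : GG H D) (S : Set k[X]) (hS : ∀ P ∈ S, Nw a D P) :
    (∃ T ⊆ S, T.Infinite ∧ ∀ A : Finset k[X], ↑A ⊆ T → Even A.card → GG H (D * ∏ P ∈ A, P)) ↔
      {P ∈ S | Adm a D P}.Infinite := by
  haveI := Bd_finite hD
  constructor
  · rintro ⟨T, hTS, hT, h⟩
    obtain ⟨T', hT'T, hT'i, ⟨x, hx⟩, -⟩ := ram_inf (tp a D) (fun _ _ => (0 : F2)) T
      (fun _ _ _ _ => rfl) hT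
    refine hT'i.mono fun P hP => ⟨hTS (hT'T hP), ?_⟩
    obtain ⟨P', hP', hne⟩ := hT'i.exists_notMem_finite (Set.finite_singleton P)
    have hne' : P ≠ P' := fun e => hne (by rw [e]; exact Set.mem_singleton _)
    rw [← GG_pair hD (hS P (hTS (hT'T hP))) (hS P' (hTS (hT'T hP'))) hne'
      (ST_of_tp ((hx P hP).trans (hx P' hP').symm)), ← prod_pair (f := fun R : k[X] => R) hne']
    apply h
    · intro z hz
      rcases mem_insert.1 (mem_coe.1 hz) with rfl | hz'
      · exact hT'T hP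
      · rw [mem_singleton.1 hz']
        exact hT'T hP'
    · rw [card_pair hne']
      decide
  · intro hinf
    obtain ⟨T, hT, hTi, ⟨x, hx⟩, y, hy⟩ := ram_inf (tp a D) sy {P ∈ S | Adm a D P}
      (fun p hp r hr => sy_comm H.hk H.hm (hS p hp.1).1 (hS p hp.1).2.1 (hS r hr.1).1 (hS r hr.1).2.1)
      hinf
    refine ⟨T, fun P hP => (hT hP).1, hTi, ?_⟩
    intro A hA hev
    have hN : ∀ P ∈ A, Nw a D P := fun P hP => hS P (hT (hA hP)).1
    have hST : ∀ P ∈ A, ∀ P' ∈ A, ST a D P P' := fun P hP P' hP' =>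
      ST_of_tp ((hx P (hA hP)).trans (hx P' (hA hP')).symm)
    rw [GG_set hD hev hN hST]
    exact Cr_of_hom hD hev hN hST (fun P hP P' hP' => hy P (hA hP) P' (hA hP'))
      fun P hP => (hT (hA hP)).2

end

end Pool.Agent.U880.HJ
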