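import Pool.Agent.U880.HJ.Ar3

/-!
Primes with given symbols; infinitely many admissible primes.
-/

set_option autoImplicit false
set_option linter.all false

namespace Pool.Agent.U880.HJE

open Pool.Agent.U880.HJ hiding sg
open Finset Polynomial Filter Pool.Agent.Y164.HG Pool.Agent.H341R2.Sharp
open Pool.Agent.Y164.PS (L ch Fam L_comm L_mul_left L_prod_left L_C L_pow coprime_C
  coprime_of_not_dvd L_eq_zero_iff L_of_not_coprime L_congr el sg sg_add sg_sum sg_L sg_zero sg_one
  Pr mem_Pr card_Pr_ge char_sum prod_not_sq)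
open scoped Classical

section

variable {k : Type} [Field k] [Fintype k] [DecidableEq k]

/-- **Primes with given symbols.** -/
theorem ex_pr (hk : ringChar k ≠ 2) (hq : 4 ≤ Fintype.card k) {κ : Type} [Fintype κ]
    {R : κ → k[X]} (hR : Fam R) (e : κ → F2) :
    ∀ᶠ d : ℕ in atTop, ∃ P ∈ Pr k d, (∀ x, P ≠ R x) ∧ ∀ x, L (R x) P = e x := by
  set Δ : ℕ := ∑ x, (R x).natDegree with hΔ
  set C : ℝ := 2 + 2 ^ Fintype.card κ * (5 * Δ + 2) with hC
  set r : ℝ := Real.sqrt (Fintype.card k) with hr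
  have hr2 : 2 ≤ r := by
    rw [hr]
    apply Real.le_sqrt_of_sq_le
    norm_num
    exact_mod_cast hq
  have hrr : (Fintype.card k : ℝ) = r ^ 2 := by
    rw [hr, Real.sq_sqrt (Nat.cast_nonneg _)]
  have htend : ∀ᶠ d : ℕ in atTop, C < r ^ d :=
    (tendsto_pow_atTop_atTop_of_one_lt (by linarith)).eventually_gt_atTop C
  filter_upwards [htend, eventually_gt_atTop Δ] with d hd1 hd2
  have hd0 : 1 ≤ d := by omega
  have hdeg : ∀ x, (R x).natDegree < d := fun x =>
    lt_of_le_of_lt (single_le_sum (f := fun x => (R x).natDegree) (fun _ _ => Nat.zero_le _)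
      (mem_univ x)) hd2
  have hne : ∀ P ∈ Pr k d, ∀ x, P ≠ R x := by
    intro P hP x h
    have h1 := hdeg x
    rw [← h, (mem_Pr.1 hP).2.2] at h1
    omega
  have hcop : ∀ P ∈ Pr k d, ∀ x, IsCoprime (R x) P := by
    intro P hP x
    apply coprime_of_not_dvd (mem_Pr.1 hP).2.1
    intro hd
    exact hne P hP x (eq_of_monic_of_associated (mem_Pr.1 hP).1 (hR.mon x)
      ((mem_Pr.1 hP).2.1.associated_of_dvd (hR.irr x) hd))
  by_contra hcon
  push Not at hcon
  -- the sum over the subsets vanishes for all the primes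
  have h1 : ∀ P ∈ Pr k d, ∑ S ∈ (univ : Finset κ).powerset, sg (∑ x ∈ S, (e x + L (R x) P)) = 0 := by
    intro P hP
    have h2 : ∏ x : κ, (1 + sg (e x + L (R x) P)) = 0 := by
      obtain ⟨x, hx⟩ := hcon P hP (hne P hP)
      apply prod_eq_zero (mem_univ x)
      have h3 : ∀ a b : F2, b ≠ a → a + b = 1 := by decide
      rw [h3 _ _ hx, sg_one]
      norm_num
    rw [prod_one_add] at h2
    rw [← h2]
    exact sum_congr rfl fun S _ => sg_sum _ _
  have h2 : ∑ S ∈ (univ : Finset κ).powerset, ∑ P ∈ Pr k d, sg (∑ x ∈ S, (e x + L (R x) P)) = 0 := by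
    rw [sum_comm]
    exact sum_eq_zero h1
  have h3 : ∀ S ∈ (univ : Finset κ).powerset.erase ∅,
      |(d : ℝ) * ∑ P ∈ Pr k d, sg (∑ x ∈ S, (e x + L (R x) P))| ≤ (5 * Δ + 2) * r ^ d := by
    intro S hS
    have hSne : S.Nonempty := nonempty_iff_ne_empty.2 (ne_of_mem_erase hS)
    have h4 : ∀ P ∈ Pr k d, sg (∑ x ∈ S, (e x + L (R x) P)) =
        sg (∑ x ∈ S, e x) * (lam (∏ x ∈ S, R x) P : ℝ) := by
      intro P hP
      rw [sum_add_distrib, sg_add]
      congr 1
      have hc := hcop P hP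
      rw [← L_prod_left (mem_Pr.1 hP).2.1.ne_zero (fun x _ => (hR.mon x).ne_zero) (fun x _ => hc x),
        sg_L (mem_Pr.1 hP).2.1.ne_zero (IsCoprime.prod_left fun x _ => hc x)]
    rw [sum_congr rfl h4, ← mul_sum, abs_mul, abs_mul, Pool.Agent.Y164.PS.abs_sg, one_mul,
      Nat.abs_cast]
    have hmon : (∏ x ∈ S, R x).Monic := monic_prod_of_monic _ _ fun x _ => hR.mon x
    have hdle : (∏ x ∈ S, R x).natDegree ≤ Δ := by
      rw [natDegree_prod_of_monic _ _ fun x _ => hR.mon x]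
      exact sum_le_sum_of_subset (subset_univ _)
    have hdge : 1 ≤ (∏ x ∈ S, R x).natDegree := by
      rw [natDegree_prod_of_monic _ _ fun x _ => hR.mon x]
      obtain ⟨x, hx⟩ := hSne
      exact (hR.irr x).natDegree_pos.trans_le
        (single_le_sum (f := fun x => (R x).natDegree) (fun _ _ => Nat.zero_le _) hx)
    refine (char_sum hk hmon hdge (prod_not_sq S hSne R (fun x _ => hR.mon x)
      (fun x _ => hR.irr x) (fun x _ y _ h => hR.inj h)) d hd0).trans ?_
    apply mul_le_mul_of_nonneg_right _ (pow_nonneg (by linarith) _)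
    have : ((∏ x ∈ S, R x).natDegree : ℝ) ≤ Δ := by exact_mod_cast hdle
    linarith
  have h4 := card_Pr_ge (k := k) hk d hd0
  rw [← hr, hrr, ← pow_mul, mul_comm 2 d, pow_mul] at h4
  rw [← add_sum_erase _ _ (empty_mem_powerset _)] at h2
  have h5 : ∑ P ∈ Pr k d, sg (∑ x ∈ (∅ : Finset κ), (e x + L (R x) P)) = (Pr k d).card := by
    simp [sg_zero]
  rw [h5] at h2
  have h6 : (d : ℝ) * (Pr k d).card = -∑ S ∈ (univ : Finset κ).powerset.erase ∅,
      (d : ℝ) * ∑ P ∈ Pr k d, sg (∑ x ∈ S, (e x + L (R x) P)) := by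
    rw [← mul_sum]
    have : ((Pr k d).card : ℝ) = -∑ S ∈ (univ : Finset κ).powerset.erase ∅,
      ∑ P ∈ Pr k d, sg (∑ x ∈ S, (e x + L (R x) P)) := by linarith
    rw [this]
    ring
  have h7 : (d : ℝ) * (Pr k d).card ≤ 2 ^ Fintype.card κ * ((5 * Δ + 2) * r ^ d) := by
    rw [h6]
    refine (neg_le_abs _).trans ((abs_sum_le_sum_abs _ _).trans ((sum_le_sum h3).trans ?_))
    rw [sum_const, nsmul_eq_mul]
    apply mul_le_mul_of_nonneg_right
    · have : ((univ : Finset κ).powerset.erase ∅).card ≤ 2 ^ Fintype.card κ := by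
        refine (card_le_card (erase_subset _ _)).trans ?_
        rw [card_powerset, card_univ]
      exact_mod_cast this
    · have := pow_nonneg (show 0 ≤ r by linarith) d
      positivity
  have h8 : (r ^ d) ^ 2 ≤ C * r ^ d := by
    rw [hC]
    nlinarith
  have h9 : 0 < r ^ d := pow_pos (by linarith) d
  nlinarith

variable {n : ℕ} {a : Fin n → k[X]} {N : ℕ} {H : Geo a N} [Fact (Odd n)] {D : k[X]}

omit [Fintype k] [DecidableEq k] in
theorem Adm_of {P : k[X]} (h0 : sy P D = 0) (h1 : ∀ i j, i ≠ j → sy P (a i - a j) = 1) :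
    Adm a D P := by
  have hn : (n : F2) = 1 := odd_cast (Fact.out : Odd n)
  have key : ∀ x : Fin n → F2, ∑ l, x l = 0 → ∀ l, My a D P x l = x l := by
    intro x hx l
    rw [My, h0, zero_mul, zero_add]
    have h2 : ∀ l', sy P (a l - a l') * (x l + x l') = x l + x l' := by
      intro l'
      by_cases he : l = l'
      · rw [← he, F2_add_self, mul_zero]
      · rw [h1 l l' he, one_mul]
    rw [sum_congr rfl fun l' _ => h2 l', sum_add_distrib, hx, add_zero, sum_const, card_univ,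
      Fintype.card_fin, nsmul_eq_mul, hn, one_mul]
  intro x hx h
  funext l
  rw [← key x hx l, h l]
  rfl

include H in
theorem ex_node {i j : Fin n} (h : i < j) : ∃ s : Tau a, H.p s = i ∧ H.q s = j := by
  have hij : i ≠ j := ne_of_lt h
  have h0 := H.ne hij
  have hnu : ¬ IsUnit (a i - a j) := by
    intro h
    have h1 := natDegree_eq_zero_of_isUnit h
    rw [H.hdeg i j hij] at h1
    have := H.hN
    omega
  obtain ⟨π, hπ, hd⟩ := WfDvdMonoid.exists_irreducible_factor hnu h0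
  have hp0 : π.leadingCoeff ≠ 0 := leadingCoeff_ne_zero.2 hπ.ne_zero
  have hass : Associated π (π * C π.leadingCoeff⁻¹) :=
    ⟨(isUnit_C.2 (IsUnit.mk0 _ (inv_ne_zero hp0))).unit, rfl⟩
  have hmem : π * C π.leadingCoeff⁻¹ ∈ bpF a := by
    rw [H.mem]
    exact ⟨monic_mul_leadingCoeff_inv hπ.ne_zero, hass.irreducible hπ,
      (hass.symm.dvd).trans (hd.trans (H.dvd_del hij))⟩
  rcases (H.dvd_iff ⟨_, hmem⟩ hij).1 (hass.symm.dvd.trans hd) with h1 | h1
  · exact ⟨_, h1⟩
  · have h2 := H.lt ⟨_, hmem⟩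
    rw [h1.1, h1.2] at h2
    exact absurd h (not_lt.2 h2.le)

/-- **Admissible primes of all large even degrees.** -/
theorem ex_adm (hD : GG H D) : ∀ᶠ d : ℕ in atTop, Even d →
    ∃ P : k[X], P.natDegree = d ∧ Nw a D P ∧ Adm a D P := by
  obtain ⟨ι, _, T, σ, rfl, h⟩ := hD
  have hq : 4 ≤ Fintype.card k := by
    apply four_le _ H.hm
    exact Ring.two_ne_zero H.hk
  -- the chosen nodes
  have hcho : ∀ x : Fin n × Fin n, ∃ s : Tau a, x.1 < x.2 → H.p s = x.1 ∧ H.q s = x.2 := by
    intro x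
    by_cases hx : x.1 < x.2
    · obtain ⟨s, hs⟩ := ex_node (H := H) hx
      exact ⟨s, fun _ => hs⟩
    · obtain ⟨s⟩ := (H.conn (fun _ => 0)).nonempty
      exact ⟨s, fun h => absurd h hx⟩
  choose cho hcho using hcho
  set e : Tau a → F2 := fun s => if cho (H.p s, H.q s) = s then 1 else 0 with he
  have hsum : ∀ i j, i < j → ∑ s, mu H.p H.q i j s * e s = 1 := by
    intro i j hij
    obtain ⟨c1, c2⟩ := hcho (i, j) hij
    rw [sum_eq_single (cho (i, j))]
    · have h1 : mu H.p H.q i j (cho (i, j)) = 1 := if_pos (Or.inl ⟨c1, c2⟩)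
      have h2 : e (cho (i, j)) = 1 := by
        rw [he]
        show (if cho (H.p (cho (i, j)), H.q (cho (i, j))) = cho (i, j) then (1 : F2) else 0) = 1
        rw [c1, c2, if_pos rfl]
      rw [h1, h2, one_mul]
    · intro s _ hs
      by_cases h1 : (H.p s = i ∧ H.q s = j) ∨ (H.p s = j ∧ H.q s = i)
      · have h2 : H.p s = i ∧ H.q s = j := by
          rcases h1 with h1 | h1
          · exact h1
          · have h3 := H.lt s
            rw [h1.1, h1.2] at h3
            exact absurd hij (not_lt.2 h3.le)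
        have h3 : e s = 0 := by
          rw [he]
          show (if cho (H.p s, H.q s) = s then (1 : F2) else 0) = 0
          rw [h2.1, h2.2, if_neg (fun h => hs h.symm)]
        rw [h3, mul_zero]
      · have h2 : mu H.p H.q i j s = 0 := if_neg h1
        rw [h2, zero_mul]
    · intro h
      exact absurd (mem_univ _) h
  filter_upwards [ex_pr H.hk hq h.fam (Sum.elim (fun _ => 0) e)] with d hd hev
  obtain ⟨P, hP, hne, hL⟩ := hd
  obtain ⟨hP1, hP2, hP3⟩ := mem_Pr.1 hP
  have hPT : ∀ i, P ≠ T i := fun i => hne (Sum.inl i)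
  have hPQ : ∀ s, P ≠ QQ a s := fun s => hne (Sum.inr s)
  have hnew : Nw a (∏ i, T i) P := by
    refine ⟨hP1, hP2, fun hdv => ?_⟩
    rcases hP2.prime.dvd_or_dvd hdv with h1 | h1
    · obtain ⟨i, -, h2⟩ := (hP2.prime.dvd_finset_prod_iff _).1 h1
      exact hPT i (eq_of_monic_of_associated hP1 (h.mi i).1 (hP2.associated_of_dvd (h.mi i).2 h2))
    · exact hPQ ⟨P, H.mem.2 ⟨hP1, hP2, h1⟩⟩ rfl
  refine ⟨P, hP3, hnew, Adm_of ?_ ?_⟩
  · rw [sy_eq H.hk hP1 hP2, L_prod_left hP2.ne_zero fun i _ => (h.mi i).1.ne_zero]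
    · exact sum_eq_zero fun i _ => hL (Sum.inl i)
    · intro i _
      apply coprime_of_not_dvd hP2
      intro hd
      exact hPT i (eq_of_monic_of_associated hP1 (h.mi i).1 (hP2.associated_of_dvd (h.mi i).2 hd))
  · intro i j hij
    rw [sy_eq H.hk hP1 hP2, L_diff H hP1 hP2 hPQ hij, hP3, card_F2 hev, zero_mul, add_zero]
    have h1 : ∀ s, L (QQ a s) P = e s := fun s => hL (Sum.inr s)
    rw [sum_congr rfl fun s _ => by rw [h1 s]]
    rcases lt_or_gt_of_ne hij with h2 | h2
    · exact hsum i j h2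
    · rw [sum_congr rfl fun s _ => by rw [mu_comm]]
      exact hsum j i h2

end

end Pool.Agent.U880.HJE
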