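import Pool.Agent.Y164.HG.Form

/-!
Adding an even number of primes of the same type to a twist with trivial kernel: the exact criterion.
-/

set_option autoImplicit false
set_option linter.all false

namespace Pool.Agent.U880.HJ

open Finset Pool.Agent.Y164.HG

variable {W : Type} [AddCommGroup W] [Module F2 W] [Symp W]
variable {ι κ τ : Type} [Fintype ι] [Fintype κ] [Fintype τ]

section defs

variable (D : Dat W τ) (A : ι → ι → F2) (B : ι → τ → F2) (d : ι → F2)
  (c : κ → κ → F2) (α : ι → F2) (b : τ → F2) (δ : F2)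

/-- the symbols between the primes -/
def AA : ι ⊕ κ → ι ⊕ κ → F2
  | Sum.inl j, Sum.inl j' => A j j'
  | Sum.inl j, Sum.inr _ => α j
  | Sum.inr _, Sum.inl j => α j
  | Sum.inr i, Sum.inr i' => c i i'

/-- the symbols between the primes and the nodes -/
def BB : ι ⊕ κ → τ → F2 := Sum.elim B fun _ => b

/-- the degrees -/
def dd : ι ⊕ κ → F2 := Sum.elim d fun _ => δ

/-- the matrix of a new prime -/
def MM (x : W) : W := (∑ j, α j) • x + ∑ s, (b s * om x (D.t s)) • D.t s + δ • D.ks x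

/-- the criterion -/
def Crit : Prop := ∀ x : κ → W, (∀ i, ∑ i', c i i' • (x i' + x i) = MM D α b δ (x i)) → x = 0

/-- the part over the old primes -/
def res (w : V W (ι ⊕ κ) τ) : V W ι τ := (fun j => w.1 (Sum.inl j), w.2)

/-- the sum of the new components -/
def sm (w : V W (ι ⊕ κ) τ) : W := ∑ i, w.1 (Sum.inr i)

/-- the constant term -/
def C0 (w : V W (ι ⊕ κ) τ) : W := ∑ j, α j • w.1 (Sum.inl j) + ∑ s, (b s * w.2 s) • D.t s

/-- the equation at a new prime -/
def RR (w : V W (ι ⊕ κ) τ) (i : κ) : W :=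
  ∑ i', c i i' • (w.1 (Sum.inr i') + w.1 (Sum.inr i)) + MM D α b δ (w.1 (Sum.inr i)) + C0 D α b w

end defs

variable {D : Dat W τ} {A : ι → ι → F2} {B : ι → τ → F2} {d : ι → F2}
  {c : κ → κ → F2} {α : ι → F2} {b : τ → F2} {δ : F2}

theorem MM_add (x y : W) : MM D α b δ (x + y) = MM D α b δ x + MM D α b δ y := by
  simp only [MM, smul_add, om_add_left, mul_add, add_smul, sum_add_distrib, D.ks_add]
  abel

theorem MM_zero : MM D α b δ 0 = 0 := by
  have h := MM_add (D := D) (α := α) (b := b) (δ := δ) 0 0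
  rw [add_zero] at h
  exact (left_eq_add.1 h)

theorem MM_sum {σ : Type*} (s : Finset σ) (f : σ → W) :
    MM D α b δ (∑ i ∈ s, f i) = ∑ i ∈ s, MM D α b δ (f i) :=
  map_sum (⟨⟨fun x => MM D α b δ x, MM_zero⟩, MM_add⟩ : W →+ W) f s

theorem om_MM (x y : W) : om (MM D α b δ x) y =
    (∑ j, α j) * om x y + ∑ s, b s * (om x (D.t s) * om y (D.t s)) + δ * om (D.ks x) y := by
  simp only [MM, om_add_left, om_sum_left, om_smul_left]
  congr 2
  refine sum_congr rfl fun s _ => ?_
  rw [om_comm (D.t s) y]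
  ring

theorem FF_sum (w w' : V W (ι ⊕ κ) τ) :
    FF D (AA A c α) (BB B b) (dd d δ) w w' =
      FF D A B d (res w) (res w') + ∑ j, α j * om (sm w) (w'.1 (Sum.inl j)) +
      (Fintype.card κ : F2) * ∑ j, α j * om (w.1 (Sum.inl j)) (w'.1 (Sum.inl j)) +
      ∑ i, om (RR D c α b δ w i) (w'.1 (Sum.inr i)) + ∑ s, b s * w'.2 s * om (sm w) (D.t s) := by
  have e1 : ∀ i, om (RR D c α b δ w i) (w'.1 (Sum.inr i)) =
      ∑ i', c i i' * (om (w.1 (Sum.inr i')) (w'.1 (Sum.inr i)) + om (w.1 (Sum.inr i)) (w'.1 (Sum.inr i))) +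
      ∑ j, α j * (om (w.1 (Sum.inl j)) (w'.1 (Sum.inr i)) + om (w.1 (Sum.inr i)) (w'.1 (Sum.inr i))) +
      ∑ s, b s * (om (w.1 (Sum.inr i)) (D.t s) * om (w'.1 (Sum.inr i)) (D.t s) +
        w.2 s * om (D.t s) (w'.1 (Sum.inr i))) +
      δ * om (D.ks (w.1 (Sum.inr i))) (w'.1 (Sum.inr i)) := by
    intro i
    rw [RR, C0]
    simp only [om_add_left, om_sum_left, om_smul_left, om_MM, mul_add, sum_add_distrib, sum_mul]
    have : ∑ s, b s * w.2 s * om (D.t s) (w'.1 (Sum.inr i)) =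
        ∑ s, b s * (w.2 s * om (D.t s) (w'.1 (Sum.inr i))) :=
      sum_congr rfl fun s _ => by ring
    rw [this]
    ring
  have e2 : ∑ j, α j * om (sm w) (w'.1 (Sum.inl j)) =
      ∑ j, ∑ i, α j * om (w.1 (Sum.inr i)) (w'.1 (Sum.inl j)) := by
    refine sum_congr rfl fun j _ => ?_
    rw [sm, om_sum_left, mul_sum]
  have e3 : (Fintype.card κ : F2) * ∑ j, α j * om (w.1 (Sum.inl j)) (w'.1 (Sum.inl j)) =
      ∑ j, ∑ _i : κ, α j * om (w.1 (Sum.inl j)) (w'.1 (Sum.inl j)) := by
    rw [mul_sum]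
    refine sum_congr rfl fun j _ => ?_
    rw [sum_const, card_univ, nsmul_eq_mul]
  have e4 : ∑ s, b s * w'.2 s * om (sm w) (D.t s) =
      ∑ i, ∑ s, b s * (w'.2 s * om (w.1 (Sum.inr i)) (D.t s)) := by
    rw [sum_comm]
    refine sum_congr rfl fun s _ => ?_
    rw [sm, om_sum_left, mul_sum]
    refine sum_congr rfl fun i _ => ?_
    ring
  rw [e2, e3, e4]
  simp only [e1, FF, Fintype.sum_sum_type, AA, BB, dd, Sum.elim_inl, Sum.elim_inr, res, mul_add,
    sum_add_distrib]
  ring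

theorem dg_sum (w : V W (ι ⊕ κ) τ) : dg D (dd d δ) w = dg D d (res w) + δ • sm w := by
  simp only [dg, Fintype.sum_sum_type, dd, Sum.elim_inl, Sum.elim_inr, res, sm, smul_sum]
  abel

/-- extension by zero -/
def ex (v : V W ι τ) : V W (ι ⊕ κ) τ := (Sum.elim v.1 fun _ => 0, v.2)

theorem res_ex (v : V W ι τ) : res (ex v : V W (ι ⊕ κ) τ) = v := rfl

theorem sm_ex (v : V W ι τ) : sm (ex v : V W (ι ⊕ κ) τ) = 0 := by
  simp [sm, ex]

variable [DecidableEq κ]

/-- one new component -/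
def sg (i : κ) (y : W) : V W (ι ⊕ κ) τ := (Sum.elim (fun _ => 0) (Pi.single i y), 0)

theorem res_sg (i : κ) (y : W) : res (sg i y : V W (ι ⊕ κ) τ) = 0 := rfl

theorem sm_sg (i : κ) (y : W) : sm (sg i y : V W (ι ⊕ κ) τ) = y := by
  simp [sm, sg]

theorem FF_ex (w : V W (ι ⊕ κ) τ) (hκ : (Fintype.card κ : F2) = 0) (v : V W ι τ) :
    FF D (AA A c α) (BB B b) (dd d δ) w (ex v) = FF D A B d (res w) v +
      ∑ j, α j * om (sm w) (v.1 j) + ∑ s, b s * v.2 s * om (sm w) (D.t s) := by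
  rw [FF_sum, hκ, zero_mul, res_ex]
  simp [ex, om_zero_right]

theorem FF_sg (w : V W (ι ⊕ κ) τ) (i : κ) (y : W) :
    FF D (AA A c α) (BB B b) (dd d δ) w (sg i y) = om (RR D c α b δ w i) y := by
  have h0 : FF D A B d (res w) (0 : V W ι τ) = 0 := by
    simp [FF, om_zero_right, om_zero_left]
  rw [FF_sum, res_sg, h0]
  have h1 : ∑ i', om (RR D c α b δ w i') ((sg i y : V W (ι ⊕ κ) τ).1 (Sum.inr i')) =
      om (RR D c α b δ w i) y := by
    rw [sum_eq_single i]
    · simp [sg]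
    · intro i' _ hne
      simp [sg, Pi.single_eq_of_ne hne, om_zero_right]
    · intro h
      exact absurd (mem_univ _) h
  rw [h1]
  simp [sg, om_zero_right]

theorem AA_symm (hA : ∀ i j, A i j = A j i) (hc : ∀ i j, c i j = c j i) (x y : ι ⊕ κ) :
    AA A c α x y = AA A c α y x := by
  rcases x with x | x <;> rcases y with y | y
  · exact hA _ _
  · rfl
  · rfl
  · exact hc _ _

/-- the sum of all the equations -/
theorem sum_lap (hc : ∀ i j, c i j = c j i) (x : κ → W) :
    ∑ i, ∑ i', c i i' • (x i' + x i) = 0 := by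
  have h1 : ∑ i, ∑ i', c i i' • (x i' + x i) = ∑ i, ∑ i', c i i' • x i' + ∑ i, ∑ i', c i i' • x i := by
    simp only [smul_add, sum_add_distrib]
  rw [h1, sum_comm]
  have h2 : ∑ y, ∑ x_1, c x_1 y • x y = ∑ i, ∑ i', c i i' • x i :=
    sum_congr rfl fun i _ => sum_congr rfl fun i' _ => by rw [hc]
  rw [h2]
  exact W_add_self _

theorem card_smul (hκ : (Fintype.card κ : F2) = 0) (u : W) : ∑ _i : κ, u = 0 := by
  rw [sum_const, card_univ, ← Nat.cast_smul_eq_nsmul F2, hκ, zero_smul]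

theorem sum_RR (hκ : (Fintype.card κ : F2) = 0) (hc : ∀ i j, c i j = c j i) (w : V W (ι ⊕ κ) τ) :
    ∑ i, RR D c α b δ w i = MM D α b δ (sm w) := by
  simp only [RR, sum_add_distrib]
  rw [sum_lap hc (fun i => w.1 (Sum.inr i)), card_smul hκ, zero_add, add_zero, sm, MM_sum]

/-- **The criterion is sufficient.** -/
theorem triv_of_crit (hκ : (Fintype.card κ : F2) = 0) (hA : ∀ i j, A i j = A j i)
    (hc : ∀ i j, c i j = c j i) (hN : ∑ i, d i + D.N = 1) (hT : Triv D A B d)
    (hC : Crit D c α b δ) : Triv D (AA A c α) (BB B b) (dd d δ) := by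
  intro w hw hF
  have hAA := AA_symm (α := α) hA hc
  -- the test vectors
  have key : ∀ (i : κ) (y : W), om (RR D c α b δ w i) y +
      FF D (AA A c α) (BB B b) (dd d δ) w (ex (TT D (δ • y))) = 0 := by
    intro i y
    rw [← FF_sg w i y, ← FF_add_right D (BB B b) (dd d δ) hAA]
    apply hF
    rw [dg_add, dg_sum, dg_sum, res_sg, res_ex, sm_sg, sm_ex, smul_zero, add_zero, dg_TT, hN,
      one_smul]
    have h0 : dg D d (0 : V W ι τ) = 0 := by simp [dg]
    rw [h0, zero_add]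
    exact W_add_self _
  -- the sum of the new components
  have h1 : MM D α b δ (sm w) = 0 := by
    apply eq_zero_of_om
    intro y
    rw [← sum_RR hκ hc w, om_sum_left]
    have h2 : ∑ i : κ, (om (RR D c α b δ w i) y +
        FF D (AA A c α) (BB B b) (dd d δ) w (ex (TT D (δ • y)))) = 0 :=
      sum_eq_zero fun i _ => key i y
    rw [sum_add_distrib, sum_const, card_univ, nsmul_eq_mul, hκ, zero_mul, add_zero] at h2
    exact h2
  have h2 : sm w = 0 := by
    have h3 := hC (fun _ => sm w) (fun i => by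
      rw [h1]
      refine sum_eq_zero fun i' _ => ?_
      rw [W_add_self, smul_zero])
    rcases isEmpty_or_nonempty κ with h | ⟨⟨i⟩⟩
    · rw [sm]
      exact Fintype.sum_empty _
    · exact congrFun h3 i
  have hex : ∀ v : V W ι τ, FF D (AA A c α) (BB B b) (dd d δ) w (ex v) = FF D A B d (res w) v := by
    intro v
    rw [FF_ex w hκ, h2]
    simp [om_zero_left]
  -- the old components
  have h3 : res w = 0 := by
    apply hT
    · rw [dg_sum, h2, smul_zero, add_zero] at hw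
      exact hw
    · intro v hv
      rw [← hex]
      apply hF
      rw [dg_sum, res_ex, sm_ex, hv, smul_zero, add_zero]
  have h4 : C0 D α b w = 0 := by
    have e1 : ∀ j, w.1 (Sum.inl j) = 0 := fun j => congrFun (congrArg Prod.fst h3) j
    have e2 : ∀ s, w.2 s = 0 := fun s => congrFun (congrArg Prod.snd h3) s
    simp [C0, e1, e2]
  -- the new components
  have h5 : (fun i => w.1 (Sum.inr i)) = 0 := by
    apply hC
    intro i
    have h6 : RR D c α b δ w i = 0 := by
      apply eq_zero_of_om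
      intro y
      have h7 := key i y
      rw [hex, h3, FF_zero_left, add_zero] at h7
      exact h7
    rw [RR, h4, add_zero] at h6
    calc _ = ∑ i', c i i' • (w.1 (Sum.inr i') + w.1 (Sum.inr i)) +
          (MM D α b δ (w.1 (Sum.inr i)) + MM D α b δ (w.1 (Sum.inr i))) := by
          rw [W_add_self, add_zero]
      _ = _ := by rw [← add_assoc, h6, zero_add]
  apply Prod.ext
  · funext x
    rcases x with j | i
    · exact congrFun (congrArg Prod.fst h3) j
    · exact congrFun h5 i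
  · have h8 := congrArg Prod.snd h3
    exact h8

/-- the vector with given new components -/
def nw (x : κ → W) : V W (ι ⊕ κ) τ := (Sum.elim (fun _ => 0) x, 0)

theorem nw_zero {x : κ → W} (h : (nw x : V W (ι ⊕ κ) τ) = 0) : x = 0 := by
  funext i
  exact congrFun (congrArg Prod.fst h) (Sum.inr i)

theorem FF_nw (hκ : (Fintype.card κ : F2) = 0) {x : κ → W} (hs : ∑ i, x i = 0)
    (h : ∀ i, ∑ i', c i i' • (x i' + x i) = MM D α b δ (x i)) (w' : V W (ι ⊕ κ) τ) :
    FF D (AA A c α) (BB B b) (dd d δ) (nw x) w' = 0 := by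
  have h1 : res (nw x : V W (ι ⊕ κ) τ) = 0 := rfl
  have h2 : sm (nw x : V W (ι ⊕ κ) τ) = 0 := hs
  have h3 : C0 D α b (nw x : V W (ι ⊕ κ) τ) = 0 := by simp [C0, nw]
  have h4 : ∀ i, RR D c α b δ (nw x : V W (ι ⊕ κ) τ) i = 0 := by
    intro i
    rw [RR, h3, add_zero]
    show ∑ i', c i i' • (x i' + x i) + MM D α b δ (x i) = 0
    rw [h i]
    exact W_add_self _
  rw [FF_sum, hκ, zero_mul, h1, h2, FF_zero_left]
  simp [h4, om_zero_left]

/-- **The criterion is necessary.** -/
theorem crit_of_triv (hκ : (Fintype.card κ : F2) = 0) (hc : ∀ i j, c i j = c j i)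
    (hT : Triv D (AA A c α) (BB B b) (dd d δ)) : Crit D c α b δ := by
  have hdg : ∀ x : κ → W, ∑ i, x i = 0 → dg D (dd d δ) (nw x : V W (ι ⊕ κ) τ) = 0 := by
    intro x hx
    rw [dg_sum]
    have h1 : res (nw x : V W (ι ⊕ κ) τ) = 0 := rfl
    have h2 : sm (nw x : V W (ι ⊕ κ) τ) = 0 := hx
    rw [h1, h2, smul_zero, add_zero]
    simp [dg]
  intro x hx
  rcases isEmpty_or_nonempty κ with h | ⟨⟨i₀⟩⟩
  · funext i
    exact (IsEmpty.false i).elim
  have h1 : ∀ u : W, MM D α b δ u = 0 → u = 0 := by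
    intro u hu
    have h2 : (nw (fun _ => u) : V W (ι ⊕ κ) τ) = 0 := by
      apply hT _ (hdg _ (card_smul hκ u))
      intro w' _
      refine FF_nw hκ (card_smul hκ u) (fun i => ?_) w'
      rw [hu]
      refine sum_eq_zero fun i' _ => ?_
      rw [W_add_self, smul_zero]
    exact congrFun (nw_zero h2) i₀
  have h2 : ∑ i, x i = 0 := by
    apply h1
    rw [MM_sum, ← sum_congr rfl fun i _ => hx i]
    exact sum_lap hc x
  exact nw_zero (hT _ (hdg _ h2) fun w' _ => FF_nw hκ h2 hx w')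

end Pool.Agent.U880.HJ
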