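import Pool.Agent.U880.HJ.Ex

/-!
The final form of the theorem.
-/

set_option autoImplicit false
set_option linter.all false

open Polynomial IsDedekindDomain

namespace Pool.Agent.U880.HJ

open Finset Polynomial Pool.Agent.H341R2.Sharp Filter Topology Pool.Agent.Y164.HG
open Pool.Agent.Y164.PS (Sf mem_Sf)
open scoped Classical

section

variable {k : Type} [Field k] [Fintype k] [DecidableEq k] {n : ℕ} {a : Fin n → k[X]} {N : ℕ}
  {H : Geo a N} [Fact (Odd n)] {D : k[X]}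

theorem GG_monic (hD : GG H D) : D.Monic := by
  obtain ⟨ι, _, T, σ, rfl, h⟩ := hD
  exact monic_prod_of_monic _ _ fun i _ => (h.mi i).1

theorem GG_sqf (hD : GG H D) : Squarefree D := by
  obtain ⟨ι, _, T, σ, rfl, h⟩ := hD
  apply Finset.squarefree_prod_of_pairwise_isCoprime
  · intro i _ j _ hij
    show IsRelPrime (T i) (T j)
    apply IsCoprime.isRelPrime
    apply Pool.Agent.Y164.PS.coprime_of_not_dvd (h.mi j).2
    intro hd
    apply hij
    apply h.inj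
    exact (eq_of_monic_of_associated (h.mi j).1 (h.mi i).1
      ((h.mi j).2.associated_of_dvd (h.mi i).2 hd)).symm
  · intro i _
    exact (h.mi i).2.squarefree

theorem GG_cop (hD : GG H D) : ∀ i j, i ≠ j → IsCoprime D (a i - a j) := by
  rw [← nb_iff H (GG_monic hD)]
  obtain ⟨ι, _, T, σ, rfl, h⟩ := hD
  intro s hd
  obtain ⟨i, -, hd'⟩ := ((H.fam.irr s).prime.dvd_finset_prod_iff _).1 hd
  have h1 := eq_of_monic_of_associated (H.fam.mon s) (h.mi i).1
    ((H.fam.irr s).associated_of_dvd (h.mi i).2 hd')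
  exact absurd (h.fam.inj (a₁ := Sum.inl i) (a₂ := Sum.inr s) h1.symm) (by simp)

theorem GG_odd (hD : GG H D) : Odd (D.natDegree + N) := by
  obtain ⟨ι, _, T, σ, rfl, h⟩ := hD
  rw [← ZMod.natCast_eq_one_iff_odd, natDegree_prod_of_monic _ _ fun i _ => (h.mi i).1]
  push_cast
  exact h.par

theorem GG_good (K : Type) [Field K] [Algebra k[X] K] [IsFractionRing k[X] K] (hD : GG H D) :
    Good K a D := by
  obtain ⟨ι, _, T, σ, rfl, h⟩ := hD
  exact imp_good H σ ι T h.fam h.cl h.par h.triv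

end

/-- the final form -/
theorem final {k : Type} [Field k] [Finite k] (h2 : (2 : k) ≠ 0) (hi : IsSquare (-1 : k))
    (K : Type) [Field K] [Algebra k[X] K] [IsFractionRing k[X] K] {n : ℕ} (hn : Odd n)
    (hn3 : 3 ≤ n) (N : ℕ) (hN : 1 ≤ N) (a : Fin n → k[X])
    (hdeg : ∀ i j, i ≠ j → (a i - a j).natDegree = N) (hsq : Squarefree (Del a)) :
    ∃ 𝒢 : Set k[X],
      (∀ D ∈ 𝒢, D.Monic ∧ Squarefree D ∧ (∀ i j, i ≠ j → IsCoprime D (a i - a j)) ∧
        Odd (D.natDegree + N) ∧ Good K a D) ∧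
      (∀ ε : ℝ, 0 < ε → ∀ᶠ m : ℕ in atTop, Odd (m + N) →
        (1 / 6 - ε) * ((tw a m).ncard : ℝ) ≤ (({D ∈ tw a m | D ∈ 𝒢}).ncard : ℝ)) ∧
      ∀ D ∈ 𝒢,
        (∀ A : Finset k[X], Even A.card → (∀ P ∈ A, Nw a D P) → (∀ P ∈ A, ∀ P' ∈ A, ST a D P P') →
          (D * ∏ P ∈ A, P ∈ 𝒢 ↔ Cr a D A)) ∧
        (∀ P P' : k[X], Nw a D P → Nw a D P' → P ≠ P' → ST a D P P' →
          (D * (P * P') ∈ 𝒢 ↔ Adm a D P)) ∧
        (∀ (S : Finset k[X]) (m : ℕ), (∀ P ∈ S, Nw a D P ∧ Adm a D P) →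
          2 ^ (4 * m + Nat.card (Bd a D) + 1) ≤ S.card →
          S.card.choose (2 * m) ≤ (2 ^ (4 * m + Nat.card (Bd a D) + 1)).choose (2 * m) *
            ((S.powersetCard (2 * m)).filter fun A => D * ∏ P ∈ A, P ∈ 𝒢).card) ∧
        (∀ S : Set k[X], (∀ P ∈ S, Nw a D P) →
          ((∃ T ⊆ S, T.Infinite ∧ ∀ A : Finset k[X], ↑A ⊆ T → Even A.card → D * ∏ P ∈ A, P ∈ 𝒢) ↔
            {P ∈ S | Adm a D P}.Infinite)) ∧
        (∀ᶠ d : ℕ in atTop, Even d → ∃ P : k[X], P.natDegree = d ∧ Nw a D P ∧ Adm a D P) := by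
  letI : Fintype k := Fintype.ofFinite k
  haveI : Fact (Odd n) := ⟨hn⟩
  have hchar : ringChar k ≠ 2 := by
    intro h
    apply h2
    have := ringChar.Nat.cast_ringChar (R := k)
    rw [h] at this
    exact_mod_cast this
  have H : Geo a N := ⟨hchar, hi, hn, hn3, hN, hdeg, hsq⟩
  have hq := four_le h2 hi
  refine ⟨{D | GG H D}, ?_, ?_, ?_⟩
  · intro D hD
    exact ⟨GG_monic hD, GG_sqf hD, GG_cop hD, GG_odd hD, GG_good K hD⟩
  · have e1 : ∀ m, (tw a m).ncard = ((Sf k m).filter (nb (QQ a))).card := by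
      intro m
      rw [← Set.ncard_coe_finset]
      congr 1
      ext E
      rw [Finset.mem_coe, mem_filter, mem_Sf]
      show (_ ∧ _ ∧ _ ∧ _) ↔ _
      constructor
      · rintro ⟨a1, a2, a3, a4⟩
        exact ⟨⟨a1, a2, a3⟩, (nb_iff H a1).2 a4⟩
      · rintro ⟨⟨a1, a2, a3⟩, a4⟩
        exact ⟨a1, a2, a3, (nb_iff H a1).1 a4⟩
    have e2 : ∀ m, ((Sf k m).filter (fun E => nb (QQ a) E ∧ GG H E)).card ≤
        ({E ∈ tw a m | E ∈ {D | GG H D}}).ncard := by
      intro m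
      rw [← Set.ncard_coe_finset]
      apply Set.ncard_le_ncard
      · intro E hE
        rw [Finset.mem_coe, mem_filter, mem_Sf] at hE
        obtain ⟨⟨a1, a2, a3⟩, a4, a5⟩ := hE
        exact ⟨⟨a1, a2, a3, (nb_iff H a1).1 a4⟩, a5⟩
      · apply Set.Finite.subset (Finset.finite_toSet (Sf k m))
        rintro E ⟨⟨a1, a2, a3, -⟩, -⟩
        exact mem_Sf.2 ⟨a1, a2, a3⟩
    intro ε hε
    have hmain := main_cnt H.hyp (G := GG H) (W := EW n) (fun σ => H.dat σ) (fun σ => rfl)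
      (fun σ σ' => rfl) (N : F2) (fun σ => rfl) (fun σ _ => imp_GG H σ) hq (fun σ => H.conn σ)
      ε hε
    filter_upwards [hmain] with m hm ho
    rw [e1]
    refine (hm ?_).trans ?_
    · have : ((m + N : ℕ) : F2) = 1 := (ZMod.natCast_eq_one_iff_odd).2 ho
      rw [← this]
      push_cast
      rfl
    · exact_mod_cast e2 m
  · intro D hD
    refine ⟨fun A hA hP hs => GG_set hD hA hP hs, fun P P' hP hP' hne hs => GG_pair hD hP hP' hne hs,
      fun S m hS hB => GG_count hD S (fun P hP => (hS P hP).1) (fun P hP => (hS P hP).2) m hB,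
      fun S hS => GG_inf hD S hS, ?_⟩
    exact Pool.Agent.U880.HJE.ex_adm hD

end Pool.Agent.U880.HJ
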